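import Pool.Agent.helper93.VN.SpecL

/-!
# MP_07c750, project VN, row LJT: regular curves, jitter and small change of the energy
-/

set_option autoImplicit false

open scoped MatrixGroups ContDiff Topology UpperHalfPlane ComplexConjugate ENNReal
open UpperHalfPlane MeasureTheory Filter Set

namespace Pool.Agent.VN

open Pool.Agent.RS Pool.Agent.VQ
open Pool.Agent.RPQ (mean)
open Pool.Agent.VQE (nm)

noncomputable section

/-! ### matrices of size three -/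

/-- all entries are at most `K` -/
def LJT_bd (P : Matrix (Fin 3) (Fin 3) ℝ) (K : ℝ) : Prop := ∀ i j, |P i j| ≤ K

theorem LJT_m {a b A B : ℝ} (ha : |a| ≤ A) (hb : |b| ≤ B) : |a * b| ≤ A * B := by
  rw [abs_mul]
  exact mul_le_mul ha hb (abs_nonneg _) ((abs_nonneg _).trans ha)

/-- difference of products -/
theorem LJT_d {a b a2 b2 A B dA dB : ℝ} (ha : |a| ≤ A) (hb : |b2| ≤ B) (hda : |a - a2| ≤ dA) (hdb : |b - b2| ≤ dB) : |a * b - a2 * b2| ≤ A * dB + dA * B := by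
  have e : a * b - a2 * b2 = a * (b - b2) + (a - a2) * b2 := by ring
  rw [e]
  exact (abs_add_le _ _).trans (add_le_add (LJT_m ha hdb) (LJT_m hda hb))

theorem LJT_bmul {P Q : Matrix (Fin 3) (Fin 3) ℝ} {K L : ℝ} (hP : LJT_bd P K) (hQ : LJT_bd Q L) : LJT_bd (P * Q) (3 * (K * L)) := by
  intro i j
  rw [Matrix.mul_apply, Fin.sum_univ_three]
  have h0 := LJT_m (hP i 0) (hQ 0 j)
  have h1 := LJT_m (hP i 1) (hQ 1 j)
  have h2 := LJT_m (hP i 2) (hQ 2 j)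
  have h3 := abs_add_le (P i 0 * Q 0 j + P i 1 * Q 1 j) (P i 2 * Q 2 j)
  have h4 := abs_add_le (P i 0 * Q 0 j) (P i 1 * Q 1 j)
  linarith

theorem LJT_badd {P Q : Matrix (Fin 3) (Fin 3) ℝ} {K L : ℝ} (hP : LJT_bd P K) (hQ : LJT_bd Q L) : LJT_bd (P + Q) (K + L) := by
  intro i j
  rw [Matrix.add_apply]
  exact (abs_add_le _ _).trans (add_le_add (hP i j) (hQ i j))

/-- from `(J, W, S)` to `(x, b, c)` (`i = 1/ρ`) -/
def LJT_M (ρ i κ n : ℝ) : Matrix (Fin 3) (Fin 3) ℝ :=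
  !![0, 0, ρ; -(i / 2) - n * i ^ 3 / 4, 1 / 2, κ / 2; -(i / 2) + n * i ^ 3 / 4, -(1 / 2), -(κ / 2)]

/-- from `(x, b, c)` to `(J, W, S)` -/
def LJT_N (ρ i κ n : ℝ) : Matrix (Fin 3) (Fin 3) ℝ :=
  !![0, -ρ, -ρ; -(κ * i), 1 - n * i ^ 2 / 2, -1 - n * i ^ 2 / 2; i, 0, 0]

/-- conjugation by `y = [[p, q], [r, s]]` -/
def LJT_A (p q r s : ℝ) : Matrix (Fin 3) (Fin 3) ℝ :=
  !![p * s + q * r, 2 * (r * s), -(2 * (p * q)); q * s, s * s, -(q * q); -(p * r), -(r * r), p * p]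

/-- the data are bounded -/
structure LJT_dat (C ρ i κ n : ℝ) : Prop where
  c1 : 1 ≤ C
  ri : ρ * i = 1
  rb : |ρ| ≤ C
  ib : |i| ≤ C
  kb : |κ| ≤ C
  nb : |n| ≤ C

/-- the data are close -/
structure LJT_cl (C η ρ i κ n ρ2 i2 κ2 n2 : ℝ) : Prop where
  e0 : 0 ≤ η
  rd : |ρ - ρ2| ≤ C * η
  id : |i - i2| ≤ C ^ 3 * η
  kd : |κ - κ2| ≤ C * η
  nd : |n - n2| ≤ C * η

theorem LJT_NM {C ρ i κ n : ℝ} (h : LJT_dat C ρ i κ n) : LJT_N ρ i κ n * LJT_M ρ i κ n = 1 := by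
  have hri := h.ri
  have hir : i * ρ = 1 := by rw [mul_comm]; exact hri
  unfold LJT_N LJT_M
  ext a b
  fin_cases a <;> fin_cases b <;> simp [Matrix.mul_apply, Fin.sum_univ_three]
  all_goals first | linear_combination hri | linear_combination -κ * hri | linear_combination 0 * hri

theorem LJT_Mb {C ρ i κ n : ℝ} (h : LJT_dat C ρ i κ n) : LJT_bd (LJT_M ρ i κ n) (C ^ 4) := by
  obtain ⟨h1, -, hr, hi, hk, hn⟩ := h
  have hC : 0 ≤ C := by linarith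
  have p2 : C ≤ C ^ 4 := le_self_pow₀ h1 (by norm_num)
  have p1 : 1 ≤ C ^ 4 := one_le_pow₀ h1
  have hi3 : |i ^ 3| ≤ C ^ 3 := by
    rw [abs_pow]
    exact pow_le_pow_left₀ (abs_nonneg _) hi 3
  have hni : |n * i ^ 3| ≤ C ^ 4 := by
    have := LJT_m hn hi3
    have e : C * C ^ 3 = C ^ 4 := by ring
    rwa [e] at this
  have a1 := abs_le.1 hr
  have a2 := abs_le.1 hi
  have a3 := abs_le.1 hk
  have a4 := abs_le.1 hni
  intro a b
  unfold LJT_M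
  fin_cases a <;> fin_cases b <;> simp only [Matrix.cons_val', Matrix.cons_val_zero, Matrix.cons_val_one, Matrix.of_apply, Matrix.cons_val,
    Fin.zero_eta, Fin.mk_one, Fin.reduceFinMk, Matrix.cons_val_fin_one] <;> rw [abs_le] <;> constructor <;> linarith

theorem LJT_Nb {C ρ i κ n : ℝ} (h : LJT_dat C ρ i κ n) : LJT_bd (LJT_N ρ i κ n) (2 * C ^ 3) := by
  obtain ⟨h1, -, hr, hi, hk, hn⟩ := h
  have hC : 0 ≤ C := by linarith
  have p2 : C ≤ C ^ 3 := le_self_pow₀ h1 (by norm_num)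
  have p1 : 1 ≤ C ^ 3 := one_le_pow₀ h1
  have p3 : C ^ 2 ≤ C ^ 3 := pow_le_pow_right₀ h1 (by norm_num)
  have hi2 : |i ^ 2| ≤ C ^ 2 := by
    rw [abs_pow]
    exact pow_le_pow_left₀ (abs_nonneg _) hi 2
  have hni : |n * i ^ 2| ≤ C ^ 3 := by
    have := LJT_m hn hi2
    have e : C * C ^ 2 = C ^ 3 := by ring
    rwa [e] at this
  have hki : |κ * i| ≤ C ^ 2 := by
    have := LJT_m hk hi
    have e : C * C = C ^ 2 := by ring
    rwa [e] at this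
  have a1 := abs_le.1 hr
  have a2 := abs_le.1 hi
  have a3 := abs_le.1 hki
  have a4 := abs_le.1 hni
  intro a b
  unfold LJT_N
  fin_cases a <;> fin_cases b <;> simp only [Matrix.cons_val', Matrix.cons_val_zero, Matrix.cons_val_one, Matrix.of_apply, Matrix.cons_val,
    Fin.zero_eta, Fin.mk_one, Fin.reduceFinMk, Matrix.cons_val_fin_one] <;> rw [abs_le] <;> constructor <;> linarith

theorem LJT_Md {C η ρ i κ n ρ2 i2 κ2 n2 : ℝ} (h : LJT_dat C ρ i κ n) (h2 : LJT_dat C ρ2 i2 κ2 n2) (hc : LJT_cl C η ρ i κ n ρ2 i2 κ2 n2) :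
    LJT_bd (LJT_M ρ i κ n - LJT_M ρ2 i2 κ2 n2) (2 * C ^ 6 * η) := by
  obtain ⟨h1, -, hr, hi, hk, hn⟩ := h
  obtain ⟨-, -, hr2, hi2, hk2, hn2⟩ := h2
  obtain ⟨e0, rd, idd, kd, nd⟩ := hc
  have hC : 0 ≤ C := by linarith
  have q1 : C * η ≤ C ^ 6 * η := mul_le_mul_of_nonneg_right (le_self_pow₀ h1 (by norm_num)) e0
  have q2 : C ^ 3 * η ≤ C ^ 6 * η := mul_le_mul_of_nonneg_right (pow_le_pow_right₀ h1 (by norm_num)) e0
  have q4 : C ^ 4 * η ≤ C ^ 6 * η := mul_le_mul_of_nonneg_right (pow_le_pow_right₀ h1 (by norm_num)) e0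
  have q3 : 0 ≤ C ^ 6 * η := by positivity
  have s2 : |i ^ 2 - i2 ^ 2| ≤ 2 * (C ^ 4 * η) := by
    have := LJT_d hi hi2 idd idd
    rw [← pow_two, ← pow_two] at this
    refine this.trans (le_of_eq ?_)
    ring
  have hi22 : |i2 ^ 2| ≤ C ^ 2 := by
    rw [abs_pow]
    exact pow_le_pow_left₀ (abs_nonneg _) hi2 2
  have hi23 : |i2 ^ 3| ≤ C ^ 3 := by
    rw [abs_pow]
    exact pow_le_pow_left₀ (abs_nonneg _) hi2 3
  have s3 : |i ^ 3 - i2 ^ 3| ≤ 3 * (C ^ 5 * η) := by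
    have := LJT_d hi hi22 idd s2
    have e1 : i * i ^ 2 = i ^ 3 := by ring
    have e2 : i2 * i2 ^ 2 = i2 ^ 3 := by ring
    rw [e1, e2] at this
    refine this.trans (le_of_eq ?_)
    ring
  have s4 : |n * i ^ 3 - n2 * i2 ^ 3| ≤ 3 * (C ^ 6 * η) + C ^ 4 * η := by
    have := LJT_d hn hi23 nd s3
    refine this.trans (le_of_eq ?_)
    ring
  have a1 := abs_le.1 rd
  have a2 := abs_le.1 idd
  have a3 := abs_le.1 kd
  have a4 := abs_le.1 s4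
  intro a b
  rw [Matrix.sub_apply]
  unfold LJT_M
  fin_cases a <;> fin_cases b <;> simp only [Matrix.cons_val', Matrix.cons_val_zero, Matrix.cons_val_one, Matrix.of_apply, Matrix.cons_val,
    Fin.zero_eta, Fin.mk_one, Fin.reduceFinMk, Matrix.cons_val_fin_one] <;> rw [abs_le] <;> constructor <;> linarith

theorem LJT_Nd {C η ρ i κ n ρ2 i2 κ2 n2 : ℝ} (h : LJT_dat C ρ i κ n) (h2 : LJT_dat C ρ2 i2 κ2 n2) (hc : LJT_cl C η ρ i κ n ρ2 i2 κ2 n2) :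
    LJT_bd (LJT_N ρ i κ n - LJT_N ρ2 i2 κ2 n2) (2 * C ^ 5 * η) := by
  obtain ⟨h1, -, hr, hi, hk, hn⟩ := h
  obtain ⟨-, -, hr2, hi2, hk2, hn2⟩ := h2
  obtain ⟨e0, rd, idd, kd, nd⟩ := hc
  have hC : 0 ≤ C := by linarith
  have q1 : C * η ≤ C ^ 5 * η := mul_le_mul_of_nonneg_right (le_self_pow₀ h1 (by norm_num)) e0
  have q2 : C ^ 3 * η ≤ C ^ 5 * η := mul_le_mul_of_nonneg_right (pow_le_pow_right₀ h1 (by norm_num)) e0
  have q4 : C ^ 4 * η ≤ C ^ 5 * η := mul_le_mul_of_nonneg_right (pow_le_pow_right₀ h1 (by norm_num)) e0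
  have q5 : C ^ 2 * η ≤ C ^ 5 * η := mul_le_mul_of_nonneg_right (pow_le_pow_right₀ h1 (by norm_num)) e0
  have q3 : 0 ≤ C ^ 5 * η := by positivity
  have s2 : |i ^ 2 - i2 ^ 2| ≤ 2 * (C ^ 4 * η) := by
    have := LJT_d hi hi2 idd idd
    rw [← pow_two, ← pow_two] at this
    refine this.trans (le_of_eq ?_)
    ring
  have hi22 : |i2 ^ 2| ≤ C ^ 2 := by
    rw [abs_pow]
    exact pow_le_pow_left₀ (abs_nonneg _) hi2 2
  have s4 : |n * i ^ 2 - n2 * i2 ^ 2| ≤ 2 * (C ^ 5 * η) + C ^ 3 * η := by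
    have := LJT_d hn hi22 nd s2
    refine this.trans (le_of_eq ?_)
    ring
  have s5 : |κ * i - κ2 * i2| ≤ C ^ 4 * η + C ^ 2 * η := by
    have := LJT_d hk hi2 kd idd
    refine this.trans (le_of_eq ?_)
    ring
  have a1 := abs_le.1 rd
  have a2 := abs_le.1 idd
  have a3 := abs_le.1 s5
  have a4 := abs_le.1 s4
  intro a b
  rw [Matrix.sub_apply]
  unfold LJT_N
  fin_cases a <;> fin_cases b <;> simp only [Matrix.cons_val', Matrix.cons_val_zero, Matrix.cons_val_one, Matrix.of_apply, Matrix.cons_val,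
    Fin.zero_eta, Fin.mk_one, Fin.reduceFinMk, Matrix.cons_val_fin_one] <;> rw [abs_le] <;> constructor <;> linarith

theorem LJT_Ab {ν p q r s : ℝ} (hν : ν ≤ 1 / 10) (hdet : p * s - q * r = 1) (hp : |p - 1| ≤ ν) (hq : |q| ≤ ν) (hr : |r| ≤ ν) (hs : |s - 1| ≤ ν) :
    LJT_bd (LJT_A p q r s) 2 ∧ LJT_bd (LJT_A p q r s - 1) (3 * ν) := by
  have hν0 : 0 ≤ ν := (abs_nonneg _).trans hq
  have hνν : ν * ν ≤ ν / 10 := by nlinarith
  have m1 := abs_le.1 (LJT_m hp hp)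
  have m2 := abs_le.1 (LJT_m hp hr)
  have m3 := abs_le.1 (LJT_m hr hr)
  have m4 := abs_le.1 (LJT_m hp hs)
  have m5 := abs_le.1 (LJT_m hq hr)
  have m6 := abs_le.1 (LJT_m hr hs)
  have m7 := abs_le.1 (LJT_m hp hq)
  have m8 := abs_le.1 (LJT_m hq hs)
  have m9 := abs_le.1 (LJT_m hs hs)
  have m0 := abs_le.1 (LJT_m hq hq)
  have p' := abs_le.1 hp
  have q' := abs_le.1 hq
  have r' := abs_le.1 hr
  have s' := abs_le.1 hs
  constructor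
  · intro a b
    unfold LJT_A
    fin_cases a <;> fin_cases b <;> simp only [Matrix.cons_val', Matrix.cons_val_zero, Matrix.cons_val_one, Matrix.of_apply, Matrix.cons_val,
      Fin.zero_eta, Fin.mk_one, Fin.reduceFinMk, Matrix.cons_val_fin_one] <;> rw [abs_le] <;> constructor <;> linarith
  · intro a b
    rw [Matrix.sub_apply, Matrix.one_fin_three]
    unfold LJT_A
    fin_cases a <;> fin_cases b <;> simp only [Matrix.cons_val', Matrix.cons_val_zero, Matrix.cons_val_one, Matrix.of_apply, Matrix.cons_val,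
      Fin.zero_eta, Fin.mk_one, Fin.reduceFinMk, Matrix.cons_val_fin_one] <;> rw [abs_le] <;> constructor <;> linarith

theorem LJT_E1 {C ν ε ρ i κ n ρ' i' κ' n' p q r s : ℝ} (h : LJT_dat C ρ i κ n) (h' : LJT_dat C ρ' i' κ' n')
    (hc : LJT_cl C ε ρ' i' κ' n' ρ i κ n) (hνε : ν ≤ ε) (hν : ν ≤ 1 / 10) (hdet : p * s - q * r = 1) (hp : |p - 1| ≤ ν) (hq : |q| ≤ ν) (hr : |r| ≤ ν)
    (hs : |s - 1| ≤ ν) : LJT_bd (LJT_N ρ' i' κ' n' * (LJT_A p q r s * LJT_M ρ i κ n) - 1) (100 * C ^ 9 * ε) := by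
  obtain ⟨hA, hA1⟩ := LJT_Ab hν hdet hp hq hr hs
  have h1 := LJT_bmul (LJT_Nd h' h hc) (LJT_bmul hA (LJT_Mb h))
  have h2 := LJT_bmul (LJT_Nb h) (LJT_bmul hA1 (LJT_Mb h))
  have h3 := LJT_badd h1 h2
  have hNM := LJT_NM h
  have e : (LJT_N ρ' i' κ' n' - LJT_N ρ i κ n) * (LJT_A p q r s * LJT_M ρ i κ n) + LJT_N ρ i κ n * ((LJT_A p q r s - 1) * LJT_M ρ i κ n) =
      LJT_N ρ' i' κ' n' * (LJT_A p q r s * LJT_M ρ i κ n) - 1 := by
    rw [Matrix.sub_mul, Matrix.sub_mul, Matrix.mul_sub, Matrix.one_mul, hNM]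
    abel
  rw [e] at h3
  intro a b
  refine (h3 a b).trans ?_
  have hC := h.c1
  have hν0 : 0 ≤ ν := (abs_nonneg _).trans hq
  have h4 : C ^ 7 * ν ≤ C ^ 9 * ε := mul_le_mul (pow_le_pow_right₀ hC (by norm_num)) hνε hν0 (by positivity)
  have h5 : 0 ≤ C ^ 9 * ε := by
    have := hc.e0
    positivity
  have e1 : 3 * (2 * C ^ 5 * ε * (3 * (2 * C ^ 4))) = 36 * (C ^ 9 * ε) := by ring
  have e2 : 3 * (2 * C ^ 3 * (3 * (3 * ν * C ^ 4))) = 54 * (C ^ 7 * ν) := by ring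
  have e3 : 100 * C ^ 9 * ε = 100 * (C ^ 9 * ε) := by ring
  rw [e1, e2, e3]
  linarith

theorem LJT_E2 {C ν η ρ i κ n ρ' i' κ' n' r1 i1 κ1 n1 r2 i2 κ2 n2 p q r s : ℝ} (h : LJT_dat C ρ i κ n) (h' : LJT_dat C ρ' i' κ' n')
    (h1 : LJT_dat C r1 i1 κ1 n1) (h2 : LJT_dat C r2 i2 κ2 n2)
    (hc : LJT_cl C η r1 i1 κ1 n1 ρ i κ n) (hc' : LJT_cl C (5 * η) r2 i2 κ2 n2 ρ' i' κ' n') (hν : ν ≤ 1 / 10) (hdet : p * s - q * r = 1)
    (hp : |p - 1| ≤ ν) (hq : |q| ≤ ν) (hr : |r| ≤ ν) (hs : |s - 1| ≤ ν) :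
    LJT_bd (LJT_N r2 i2 κ2 n2 * (LJT_A p q r s * LJT_M r1 i1 κ1 n1) - LJT_N ρ' i' κ' n' * (LJT_A p q r s * LJT_M ρ i κ n)) (300 * C ^ 9 * η) := by
  obtain ⟨hA, -⟩ := LJT_Ab hν hdet hp hq hr hs
  have k1 := LJT_bmul (LJT_Nd h2 h' hc') (LJT_bmul hA (LJT_Mb h1))
  have k2 := LJT_bmul (LJT_Nb h') (LJT_bmul hA (LJT_Md h1 h hc))
  have k3 := LJT_badd k1 k2
  have e : (LJT_N r2 i2 κ2 n2 - LJT_N ρ' i' κ' n') * (LJT_A p q r s * LJT_M r1 i1 κ1 n1) +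
      LJT_N ρ' i' κ' n' * (LJT_A p q r s * (LJT_M r1 i1 κ1 n1 - LJT_M ρ i κ n)) =
      LJT_N r2 i2 κ2 n2 * (LJT_A p q r s * LJT_M r1 i1 κ1 n1) - LJT_N ρ' i' κ' n' * (LJT_A p q r s * LJT_M ρ i κ n) := by
    rw [Matrix.sub_mul, Matrix.mul_sub, Matrix.mul_sub]
    abel
  rw [e] at k3
  intro a b
  refine (k3 a b).trans ?_
  have hC := h.c1
  have h5 : 0 ≤ C ^ 9 * η := by
    have := hc.e0
    positivity
  have e1 : 3 * (2 * C ^ 5 * (5 * η) * (3 * (2 * C ^ 4))) + 3 * (2 * C ^ 3 * (3 * (2 * (2 * C ^ 6 * η)))) = 252 * (C ^ 9 * η) := by ring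
  have e3 : 300 * C ^ 9 * η = 300 * (C ^ 9 * η) := by ring
  rw [e1, e3]
  linarith

/-- a linear form with small coefficients -/
theorem LJT_lin {d0 d1 d2 u ξ e U X : ℝ} (h0 : |d0| ≤ e) (h1 : |d1| ≤ e) (h2 : |d2| ≤ e) (hu : |u| ≤ U) (hξ : |ξ| ≤ X) :
    |d0 + d1 * u + d2 * ξ| ≤ e * (1 + U + X) := by
  have k1 := LJT_m h1 hu
  have k2 := LJT_m h2 hξ
  have k3 := abs_add_le (d0 + d1 * u) (d2 * ξ)
  have k4 := abs_add_le d0 (d1 * u)
  linarith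

theorem LJT_dif {d0 d1 d2 f0 f1 f2 u ξ u2 ξ2 e G U X a b : ℝ} (h1 : |d1| ≤ e) (h2 : |d2| ≤ e) (g0 : |f0 - d0| ≤ G) (g1 : |f1 - d1| ≤ G) (g2 : |f2 - d2| ≤ G)
    (hu : |u2| ≤ U) (hξ : |ξ2| ≤ X) (ha : |u2 - u| ≤ a) (hb : |ξ2 - ξ| ≤ b) :
    |(f0 + f1 * u2 + f2 * ξ2) - (d0 + d1 * u + d2 * ξ)| ≤ G * (1 + U + X) + e * (a + b) := by
  have e1 : (f0 + f1 * u2 + f2 * ξ2) - (d0 + d1 * u + d2 * ξ) = ((f0 - d0) + (f1 - d1) * u2 + (f2 - d2) * ξ2) + (d1 * (u2 - u) + d2 * (ξ2 - ξ)) := by ring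
  rw [e1]
  have k1 := LJT_lin g0 g1 g2 hu hξ
  have k2 := LJT_m h1 ha
  have k3 := LJT_m h2 hb
  have k4 := abs_add_le (d1 * (u2 - u)) (d2 * (ξ2 - ξ))
  have k5 := abs_add_le ((f0 - d0) + (f1 - d1) * u2 + (f2 - d2) * ξ2) (d1 * (u2 - u) + d2 * (ξ2 - ξ))
  linarith

/-- quotients -/
theorem LJT_quot {w w2 j j2 W0 dw dj : ℝ} (hj : |j - 1| ≤ 1 / 100) (hj2 : |j2 - 1| ≤ 1 / 100) (hw : |w| ≤ W0) (hdw : |w2 - w| ≤ dw) (hdj : |j2 - j| ≤ dj) :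
    |w / j - w2 / j2| ≤ 51 / 50 * dw + 21 / 20 * (W0 * dj) := by
  have j1 := abs_le.1 hj
  have j3 := abs_le.1 hj2
  have hj0 : 0 < j := by linarith
  have hj20 : 0 < j2 := by linarith
  have hW : 0 ≤ W0 := (abs_nonneg _).trans hw
  have hdj0 : 0 ≤ dj := (abs_nonneg _).trans hdj
  have hdw0 : 0 ≤ dw := (abs_nonneg _).trans hdw
  have e1 : w / j - w2 / j2 = w * (j2 - j) / (j * j2) + -((w2 - w) / j2) := by
    field_simp
    ring
  rw [e1]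
  refine (abs_add_le _ _).trans ?_
  rw [abs_neg, abs_div, abs_div, abs_of_pos hj20, abs_of_pos (mul_pos hj0 hj20)]
  have k1 : |w * (j2 - j)| / (j * j2) ≤ 21 / 20 * (W0 * dj) := by
    rw [div_le_iff₀ (mul_pos hj0 hj20)]
    have h1 := LJT_m hw hdj
    have h2 : (99 : ℝ) / 100 * (99 / 100) ≤ j * j2 := mul_le_mul (by linarith) (by linarith) (by norm_num) hj0.le
    have h3 : 0 ≤ W0 * dj := mul_nonneg hW hdj0
    have h4 := mul_le_mul_of_nonneg_left h2 h3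
    linarith
  have k2 : |w2 - w| / j2 ≤ 51 / 50 * dw := by
    rw [div_le_iff₀ hj20]
    have h4 := mul_le_mul_of_nonneg_left j3.1 hdw0
    linarith
  linarith

/-- logarithms -/
theorem LJT_log {j j2 dj : ℝ} (hj : |j - 1| ≤ 1 / 100) (hj2 : |j2 - 1| ≤ 1 / 100) (hdj : |j2 - j| ≤ dj) : |Real.log j2 - Real.log j| ≤ 51 / 50 * dj := by
  have j1 := abs_le.1 hj
  have j3 := abs_le.1 hj2
  have hj0 : 0 < j := by linarith
  have hj20 : 0 < j2 := by linarith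
  have hdj0 : 0 ≤ dj := (abs_nonneg _).trans hdj
  have d1 := abs_le.1 hdj
  rw [abs_le]
  constructor
  · have h1 : Real.log j - Real.log j2 ≤ 51 / 50 * dj := by
      rw [← Real.log_div hj0.ne' hj20.ne']
      refine (Real.log_le_sub_one_of_pos (by positivity)).trans ?_
      rw [div_sub_one hj20.ne', div_le_iff₀ hj20]
      have h4 := mul_le_mul_of_nonneg_left j3.1 hdj0
      linarith
    linarith
  · rw [← Real.log_div hj20.ne' hj0.ne']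
    refine (Real.log_le_sub_one_of_pos (by positivity)).trans ?_
    rw [div_sub_one hj0.ne', div_le_iff₀ hj0]
    have h4 := mul_le_mul_of_nonneg_left j1.1 hdj0
    linarith

/-- the new data in terms of the old ones -/
theorem LJT_vec (U : ℍ → ℝ) (E E' : ℝ) (g g' : SL(2, ℝ)) (x b c p q r s : ℝ) (hρ : rho U E g ≠ 0) (P : Matrix (Fin 3) (Fin 3) ℝ)
    (hP : P = LJT_N (rho U E' g') (1 / rho U E' g') (kap U E' g') (n1 U g') * (LJT_A p q r s * LJT_M (rho U E g) (1 / rho U E g) (kap U E g) (n1 U g)))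
    (x' b' c' : ℝ) (hx : x' = x * (p * s + q * r) + 2 * b * (r * s) - 2 * c * (p * q)) (hb : b' = x * (q * s) + b * (s * s) - c * (q * q))
    (hc : c' = c * p ^ 2 - x * (p * r) - b * (r * r)) :
    Jc U E' g' b' c' = P 0 0 * Jc U E g b c + P 0 1 * Wc U E g x b c + P 0 2 * Sc U E g x ∧
    Wc U E' g' x' b' c' = P 1 0 * Jc U E g b c + P 1 1 * Wc U E g x b c + P 1 2 * Sc U E g x ∧
    Sc U E' g' x' = P 2 0 * Jc U E g b c + P 2 1 * Wc U E g x b c + P 2 2 * Sc U E g x := by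
  have h1 : (LJT_M (rho U E g) (1 / rho U E g) (kap U E g) (n1 U g)).mulVec ![Jc U E g b c, Wc U E g x b c, Sc U E g x] = ![x, b, c] := by
    unfold LJT_M Jc Wc Sc
    ext i
    fin_cases i <;> simp [Matrix.mulVec, dotProduct, Fin.sum_univ_three] <;> field_simp <;> ring
  have h2 : (LJT_A p q r s).mulVec ![x, b, c] = ![x', b', c'] := by
    unfold LJT_A
    ext i
    fin_cases i <;> simp [Matrix.mulVec, dotProduct, Fin.sum_univ_three, hx, hb, hc] <;> ring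
  have h3 : (LJT_N (rho U E' g') (1 / rho U E' g') (kap U E' g') (n1 U g')).mulVec ![x', b', c'] = ![Jc U E' g' b' c', Wc U E' g' x' b' c', Sc U E' g' x'] := by
    unfold LJT_N Jc Wc Sc
    ext i
    fin_cases i <;> simp [Matrix.mulVec, dotProduct, Fin.sum_univ_three] <;> ring
  have h4 : P.mulVec ![Jc U E g b c, Wc U E g x b c, Sc U E g x] = ![Jc U E' g' b' c', Wc U E' g' x' b' c', Sc U E' g' x'] := by
    rw [hP, ← Matrix.mulVec_mulVec, ← Matrix.mulVec_mulVec, h1, h2, h3]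
  have h5 : ∀ i, P.mulVec ![Jc U E g b c, Wc U E g x b c, Sc U E g x] i = P i 0 * Jc U E g b c + P i 1 * Wc U E g x b c + P i 2 * Sc U E g x := by
    intro i
    simp [Matrix.mulVec, dotProduct, Fin.sum_univ_three]
  refine ⟨?_, ?_, ?_⟩
  · rw [← h5, h4]; rfl
  · rw [← h5, h4]; rfl
  · rw [← h5, h4]; rfl

/-- pointwise estimates -/
theorem LJT_pt {C κ e d0 d1 d2 f0 f1 f2 g0 g1 g2 u ξ : ℝ} (hC : 1 ≤ C) (hκ : κ = 1 / 2 ∨ κ = 1) (he : e * (1 + 2 * C + 12 * C ^ 3) ≤ 1 / (100 * C))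
    (a0 : |d0| ≤ e) (a1 : |d1| ≤ e) (a2 : |d2| ≤ e) (b0 : |f0| ≤ e) (b1 : |f1| ≤ e) (b2 : |f2| ≤ e) (c0 : |g0| ≤ e) (c1 : |g1| ≤ e) (c2 : |g2| ≤ e)
    (hu1 : 1 ≤ (1 + κ) * C * u) (hu2 : u ≤ (1 + κ) * C) (hξ : |ξ| ≤ (1 + κ) * (6 * C ^ 3)) :
    |(1 + (d0 + d1 * u + d2 * ξ)) - 1| ≤ 1 / 100 ∧ 1 + (d0 + d1 * u + d2 * ξ) ≤ (1 + 2 * κ) * C * (u + (f0 + f1 * u + f2 * ξ)) ∧
    u + (f0 + f1 * u + f2 * ξ) ≤ (1 + 2 * κ) * C * (1 + (d0 + d1 * u + d2 * ξ)) ∧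
    |ξ + (g0 + g1 * u + g2 * ξ)| ≤ (1 + 2 * κ) * (6 * C ^ 3) * (1 + (d0 + d1 * u + d2 * ξ)) ∧ |u + (f0 + f1 * u + f2 * ξ)| ≤ 3 * C ∧
    |ξ + (g0 + g1 * u + g2 * ξ)| ≤ 13 * C ^ 3 ∧ |u| ≤ 2 * C ∧ |ξ| ≤ 12 * C ^ 3 := by
  have hC3 : 1 ≤ C ^ 3 := one_le_pow₀ hC
  have hC0 : 0 < C := by linarith
  have hu0 : 0 < u := by
    by_contra h
    have h1 : (1 + κ) * C * u ≤ 0 := by
      apply mul_nonpos_of_nonneg_of_nonpos _ (not_lt.1 h)
      rcases hκ with rfl | rfl <;> positivity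
    linarith
  have hκ1 : (1 + κ) * C ≤ 2 * C := by
    apply mul_le_mul_of_nonneg_right _ hC0.le
    rcases hκ with rfl | rfl <;> norm_num
  have hκ2 : (1 + κ) * (6 * C ^ 3) ≤ 12 * C ^ 3 := by
    rcases hκ with rfl | rfl <;> linarith
  have hu : |u| ≤ 2 * C := by rw [abs_of_pos hu0]; linarith
  have hξ' : |ξ| ≤ 12 * C ^ 3 := hξ.trans hκ2
  have hθ : 1 / (100 * C) ≤ 1 / 100 := by
    apply one_div_le_one_div_of_le (by norm_num)
    linarith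
  have hCθ : C * (1 / (100 * C)) = 1 / 100 := by field_simp
  have k1 := abs_le.1 ((LJT_lin a0 a1 a2 hu hξ').trans he)
  have k2 := (LJT_lin b0 b1 b2 hu hξ').trans he
  have k3 := abs_le.1 ((LJT_lin c0 c1 c2 hu hξ').trans he)
  have k4 := mul_le_mul_of_nonneg_left k2 hC0.le
  rw [hCθ, ← abs_of_pos hC0, ← abs_mul] at k4
  have k5 := abs_le.1 k4
  have k6 := abs_le.1 k2
  have k7 := abs_le.1 hξ
  set α := d0 + d1 * u + d2 * ξ with hα
  set β := f0 + f1 * u + f2 * ξ with hβ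
  set τ := g0 + g1 * u + g2 * ξ with hτ
  clear_value α β τ
  have m1 : C * (99 / 100) ≤ C * (1 + α) := mul_le_mul_of_nonneg_left (by linarith) hC0.le
  have m2 : C ^ 3 * (99 / 100) ≤ C ^ 3 * (1 + α) := mul_le_mul_of_nonneg_left (by linarith) (by positivity)
  refine ⟨?_, ?_, ?_, ?_, ?_, ?_, hu, hξ'⟩
  · rw [abs_le]
    constructor <;> linarith
  · rcases hκ with rfl | rfl
    · have e1 : (1 + 2 * (1 / 2 : ℝ)) * C * (u + β) = 2 * (C * u) + 2 * (C * β) := by ring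
      have e2 : (1 + 1 / 2 : ℝ) * C * u = 3 / 2 * (C * u) := by ring
      rw [e1]
      rw [e2] at hu1
      linarith
    · have e1 : (1 + 2 * (1 : ℝ)) * C * (u + β) = 3 * (C * u) + 3 * (C * β) := by ring
      have e2 : (1 + 1 : ℝ) * C * u = 2 * (C * u) := by ring
      rw [e1]
      rw [e2] at hu1
      linarith
  · rcases hκ with rfl | rfl
    · have e1 : (1 + 2 * (1 / 2 : ℝ)) * C * (1 + α) = 2 * (C * (1 + α)) := by ring
      rw [e1]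
      linarith
    · have e1 : (1 + 2 * (1 : ℝ)) * C * (1 + α) = 3 * (C * (1 + α)) := by ring
      rw [e1]
      linarith
  · rcases hκ with rfl | rfl
    · have e1 : (1 + 2 * (1 / 2 : ℝ)) * (6 * C ^ 3) * (1 + α) = 12 * (C ^ 3 * (1 + α)) := by ring
      rw [e1, abs_le]
      constructor <;> linarith
    · have e1 : (1 + 2 * (1 : ℝ)) * (6 * C ^ 3) * (1 + α) = 18 * (C ^ 3 * (1 + α)) := by ring
      rw [e1, abs_le]
      constructor <;> linarith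
  · rw [abs_le]
    constructor <;> linarith
  · rw [abs_le]
    constructor <;> linarith

/-- the constant `F` -/
theorem LJT_F {C F : ℝ} (hC : 1 ≤ C) (hF : FM C ≤ F) : 10 ^ 40 * C ^ 40 ≤ F ∧ 1 ≤ F := by
  have h1 : 10 ^ 40 * C ^ 40 ≤ F := by
    refine le_trans ?_ hF
    unfold FM
    have h2 : 1 ≤ Real.exp (40 * C) := Real.one_le_exp (by linarith)
    have h3 : (10 * C) ^ 40 = 10 ^ 40 * C ^ 40 := by ring
    rw [h3]
    have h4 : 0 ≤ 10 ^ 40 * C ^ 40 := by positivity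
    nlinarith
  refine ⟨h1, le_trans ?_ h1⟩
  have h2 : (1 : ℝ) ≤ C ^ 40 := one_le_pow₀ hC
  have h3 : (1 : ℝ) ≤ 10 ^ 40 := by norm_num
  nlinarith

theorem LJT_Fk {C F : ℝ} (hC : 1 ≤ C) (hF : FM C ≤ F) (k : ℕ) (hk : k ≤ 40) : 10 ^ 40 * C ^ k ≤ F := by
  have h1 := (LJT_F hC hF).1
  have h2 : C ^ k ≤ C ^ 40 := pow_le_pow_right₀ hC hk
  nlinarith

/-- small numbers -/
theorem LJT_sm {C F : ℝ} (hC : 1 ≤ C) (hF : FM C ≤ F) : 100 * C ^ 9 * (2 / F ^ 3) * (1 + 2 * C + 12 * C ^ 3) ≤ 1 / (100 * C) ∧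
    100 * C ^ 9 * (2 / F ^ 3) * (2 * F ^ 2) ≤ 1 ∧ 1 / F ^ 3 ≤ 1 / 10 ∧ 5 * C * (1 + 450000 * C ^ 16) ≤ F / 20 ∧ 15 * C ^ 3 * (1 + 450000 * C ^ 16) ≤ F / 20 := by
  obtain ⟨hF1, hF2⟩ := LJT_F hC hF
  have hC0 : 0 < C := by linarith
  have hF0 : 0 < F := by linarith
  have hF3 : F ≤ F ^ 3 := le_self_pow₀ hF2 (by norm_num)
  have k13 := LJT_Fk hC hF 13 (by norm_num)
  have k9 := LJT_Fk hC hF 9 (by norm_num)
  have k0 := LJT_Fk hC hF 0 (by norm_num)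
  have k1 := LJT_Fk hC hF 1 (by norm_num)
  have k3 := LJT_Fk hC hF 3 (by norm_num)
  have k17 := LJT_Fk hC hF 17 (by norm_num)
  have k19 := LJT_Fk hC hF 19 (by norm_num)
  rw [pow_zero] at k0
  rw [pow_one] at k1
  refine ⟨?_, ?_, ?_, ?_, ?_⟩
  · have h1 : 1 + 2 * C + 12 * C ^ 3 ≤ 15 * C ^ 3 := by
      have : 1 ≤ C ^ 3 := one_le_pow₀ hC
      have : C ≤ C ^ 3 := le_self_pow₀ hC (by norm_num)
      linarith
    have h2 : 100 * C ^ 9 * (2 / F ^ 3) * (1 + 2 * C + 12 * C ^ 3) ≤ 100 * C ^ 9 * (2 / F ^ 3) * (15 * C ^ 3) :=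
      mul_le_mul_of_nonneg_left h1 (by positivity)
    refine h2.trans ?_
    rw [le_div_iff₀ (by positivity)]
    have e1 : 100 * C ^ 9 * (2 / F ^ 3) * (15 * C ^ 3) * (100 * C) = 300000 * C ^ 13 / F ^ 3 := by
      field_simp
      ring
    rw [e1, div_le_one (by positivity)]
    have h3 : 0 ≤ C ^ 13 := by positivity
    linarith
  · have e1 : 100 * C ^ 9 * (2 / F ^ 3) * (2 * F ^ 2) = 400 * C ^ 9 / F := by
      field_simp
      ring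
    rw [e1, div_le_one hF0]
    have h3 : 0 ≤ C ^ 9 := by positivity
    linarith
  · apply one_div_le_one_div_of_le (by norm_num)
    linarith
  · have e1 : 5 * C * (1 + 450000 * C ^ 16) = 5 * C + 2250000 * C ^ 17 := by ring
    rw [e1]
    have h3 : 0 ≤ C ^ 17 := by positivity
    linarith
  · have e1 : 15 * C ^ 3 * (1 + 450000 * C ^ 16) = 15 * C ^ 3 + 6750000 * C ^ 19 := by ring
    rw [e1]
    have h3 : 0 ≤ C ^ 19 := by positivity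
    have h4 : 0 ≤ C ^ 3 := by positivity
    linarith

theorem LJT_a1 {X Y Z V : ℝ} (h1 : Y ≤ Z) (h2 : 5 * Z ≤ V / 20) (h3 : V / 2 ≤ X) (h4 : 0 ≤ V) : 51 / 50 * (X + Y) + 63 / 20 * Z ≤ 198 / 100 * X := by
  linarith

theorem LJT_a2 {X Y Z V T : ℝ} (h1 : Y ≤ Z) (h2 : 15 * Z ≤ V / 20) (h3 : T / 2 ≤ X) (h4 : V ≤ T) (h5 : 0 ≤ V) :
    51 / 50 * (X + Y) + 273 / 20 * Z ≤ 198 / 100 * X := by
  linarith

theorem LJT_a3 {X Y Z V T : ℝ} (h1 : Y ≤ Z) (h2 : 5 * Z ≤ V / 20) (h3 : T / 2 ≤ X) (h4 : V ≤ T) (h5 : 0 ≤ V) : X + 51 / 50 * Y ≤ 198 / 100 * X := by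
  linarith

/-- the perturbation -/
theorem LJT_hh {C F κ L e : ℝ} (hC : 1 ≤ C) (hF1 : 1 ≤ F) (hκ1 : κ ≤ 1) (hL : 0 ≤ L) (he0 : 0 ≤ e) (s2 : e * (2 * F ^ 2) ≤ 1) :
    30000 * C ^ 13 * L * (1 + 2 * C + 12 * C ^ 3) + e * (κ * F * L + κ * F ^ 2 * L) ≤ (1 + 450000 * C ^ 16) * L := by
  have h1 : 1 + 2 * C + 12 * C ^ 3 ≤ 15 * C ^ 3 := by
    have : 1 ≤ C ^ 3 := one_le_pow₀ hC
    have : C ≤ C ^ 3 := le_self_pow₀ hC (by norm_num)
    linarith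
  have h2 : 30000 * C ^ 13 * L * (1 + 2 * C + 12 * C ^ 3) ≤ 30000 * C ^ 13 * L * (15 * C ^ 3) := mul_le_mul_of_nonneg_left h1 (by positivity)
  have h3 : κ * F * L + κ * F ^ 2 * L ≤ 2 * F ^ 2 * L := by
    have t0 : F ≤ F ^ 2 := le_self_pow₀ hF1 (by norm_num)
    have t1 : κ * F ≤ 1 * F ^ 2 := mul_le_mul hκ1 t0 (by linarith) (by norm_num)
    have t2 : κ * F ^ 2 ≤ 1 * F ^ 2 := mul_le_mul_of_nonneg_right hκ1 (by positivity)
    have t3 := mul_le_mul_of_nonneg_right t1 hL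
    have t4 := mul_le_mul_of_nonneg_right t2 hL
    linarith
  have h4 := mul_le_mul_of_nonneg_left h3 he0
  have h5 := mul_le_mul_of_nonneg_right s2 hL
  have e1 : 30000 * C ^ 13 * L * (15 * C ^ 3) = 450000 * C ^ 16 * L := by ring
  have e2 : e * (2 * F ^ 2 * L) = e * (2 * F ^ 2) * L := by ring
  rw [e1] at h2
  rw [e2] at h4
  have e3 : (1 + 450000 * C ^ 16) * L = 1 * L + 450000 * C ^ 16 * L := by ring
  rw [e3]
  exact (add_le_add h2 (h4.trans h5)).trans (le_of_eq (add_comm _ _))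

/-- the final inequalities -/
theorem LJT_fin {C F κ L e d0 d1 d2 f0 f1 f2 g0 g1 g2 u ξ D0 D1 D2 F0 F1 F2 G0 G1 G2 u2 ξ2 lJ lJ2 : ℝ} (hC : 1 ≤ C) (hF : FM C ≤ F) (hκ : κ = 1 / 2 ∨ κ = 1)
    (he : e = 100 * C ^ 9 * (2 / F ^ 3)) (hL : 0 ≤ L)
    (a0 : |d0| ≤ e) (a1 : |d1| ≤ e) (a2 : |d2| ≤ e) (b0 : |f0| ≤ e) (b1 : |f1| ≤ e) (b2 : |f2| ≤ e) (c0 : |g0| ≤ e) (c1 : |g1| ≤ e) (c2 : |g2| ≤ e)
    (A0 : |D0| ≤ e) (A1 : |D1| ≤ e) (A2 : |D2| ≤ e) (B0 : |F0| ≤ e) (B1 : |F1| ≤ e) (B2 : |F2| ≤ e) (C0 : |G0| ≤ e) (C1 : |G1| ≤ e) (C2 : |G2| ≤ e)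
    (x0 : |D0 - d0| ≤ 30000 * C ^ 13 * L) (x1 : |D1 - d1| ≤ 30000 * C ^ 13 * L) (x2 : |D2 - d2| ≤ 30000 * C ^ 13 * L)
    (y0 : |F0 - f0| ≤ 30000 * C ^ 13 * L) (y1 : |F1 - f1| ≤ 30000 * C ^ 13 * L) (y2 : |F2 - f2| ≤ 30000 * C ^ 13 * L)
    (z0 : |G0 - g0| ≤ 30000 * C ^ 13 * L) (z1 : |G1 - g1| ≤ 30000 * C ^ 13 * L) (z2 : |G2 - g2| ≤ 30000 * C ^ 13 * L)
    (hu1 : 1 ≤ (1 + κ) * C * u) (hu2 : u ≤ (1 + κ) * C) (hξ : |ξ| ≤ (1 + κ) * (6 * C ^ 3))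
    (hU1 : 1 ≤ (1 + κ) * C * u2) (hU2 : u2 ≤ (1 + κ) * C) (hΞ : |ξ2| ≤ (1 + κ) * (6 * C ^ 3))
    (hdu : |u - u2| ≤ κ * F * L) (hdξ : |ξ - ξ2| ≤ κ * F ^ 2 * L) (hdl : |lJ2 - lJ| ≤ κ * F ^ 3 * L) :
    |(u + (f0 + f1 * u + f2 * ξ)) / (1 + (d0 + d1 * u + d2 * ξ)) - (u2 + (F0 + F1 * u2 + F2 * ξ2)) / (1 + (D0 + D1 * u2 + D2 * ξ2))| ≤ 2 * κ * F * (99 / 100 * L) ∧
    |(ξ + (g0 + g1 * u + g2 * ξ)) / (1 + (d0 + d1 * u + d2 * ξ)) - (ξ2 + (G0 + G1 * u2 + G2 * ξ2)) / (1 + (D0 + D1 * u2 + D2 * ξ2))| ≤ 2 * κ * F ^ 2 * (99 / 100 * L) ∧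
    |(lJ2 + Real.log (1 + (D0 + D1 * u2 + D2 * ξ2))) - (lJ + Real.log (1 + (d0 + d1 * u + d2 * ξ)))| ≤ 2 * κ * F ^ 3 * (99 / 100 * L) := by
  obtain ⟨s1, s2, s3, s4, s5⟩ := LJT_sm hC hF
  obtain ⟨-, hF2⟩ := LJT_F hC hF
  rw [← he] at s1 s2
  obtain ⟨p1, -, -, -, p5, p6, p7, p8⟩ := LJT_pt hC hκ s1 a0 a1 a2 b0 b1 b2 c0 c1 c2 hu1 hu2 hξ
  obtain ⟨q1, -, -, -, q5, q6, q7, q8⟩ := LJT_pt hC hκ s1 A0 A1 A2 B0 B1 B2 C0 C1 C2 hU1 hU2 hΞ
  rw [abs_sub_comm] at hdu hdξ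
  have hκ0 : 1 / 2 ≤ κ := by rcases hκ with h | h <;> rw [h]; norm_num
  have hκ1 : κ ≤ 1 := by rcases hκ with h | h <;> rw [h]; norm_num
  have hF0 : 0 < F := by linarith
  have he0 : 0 ≤ e := (abs_nonneg _).trans a0
  have hh := LJT_hh hC hF2 hκ1 hL he0 s2
  have r1 := (LJT_dif a1 a2 x0 x1 x2 q7 q8 hdu hdξ).trans hh
  have r2 := (LJT_dif b1 b2 y0 y1 y2 q7 q8 hdu hdξ).trans hh
  have r3 := (LJT_dif c1 c2 z0 z1 z2 q7 q8 hdu hdξ).trans hh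
  set α := d0 + d1 * u + d2 * ξ with hα
  set β := f0 + f1 * u + f2 * ξ with hβ
  set τ := g0 + g1 * u + g2 * ξ with hτ
  set α2 := D0 + D1 * u2 + D2 * ξ2 with hα2
  set β2 := F0 + F1 * u2 + F2 * ξ2 with hβ2
  set τ2 := G0 + G1 * u2 + G2 * ξ2 with hτ2
  clear_value α β τ α2 β2 τ2
  set H := 1 + 450000 * C ^ 16 with hH
  clear_value H
  have w1 : |(1 + α2) - (1 + α)| ≤ H * L := by
    have e1 : (1 + α2) - (1 + α) = α2 - α := by ring
    rw [e1]; exact r1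
  have w2 : |(u2 + β2) - (u + β)| ≤ κ * F * L + H * L := by
    have e1 : (u2 + β2) - (u + β) = (u2 - u) + (β2 - β) := by ring
    rw [e1]; exact (abs_add_le _ _).trans (add_le_add hdu r2)
  have w3 : |(ξ2 + τ2) - (ξ + τ)| ≤ κ * F ^ 2 * L + H * L := by
    have e1 : (ξ2 + τ2) - (ξ + τ) = (ξ2 - ξ) + (τ2 - τ) := by ring
    rw [e1]; exact (abs_add_le _ _).trans (add_le_add hdξ r3)
  have v1 := LJT_quot p1 q1 p5 w2 w1
  have v2 := LJT_quot p1 q1 p6 w3 w1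
  have v3 := LJT_log p1 q1 w1
  have hH0 : 0 ≤ H := by rw [hH]; positivity
  have hHL : 0 ≤ H * L := mul_nonneg hH0 hL
  have hFL : 0 ≤ F * L := mul_nonneg hF0.le hL
  have t1 : 5 * (C * (H * L)) ≤ F * L / 20 := by
    have := mul_le_mul_of_nonneg_right s4 hL
    have e1 : 5 * C * H * L = 5 * (C * (H * L)) := by ring
    have e2 : F / 20 * L = F * L / 20 := by ring
    rwa [e1, e2] at this
  have t2 : 15 * (C ^ 3 * (H * L)) ≤ F * L / 20 := by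
    have := mul_le_mul_of_nonneg_right s5 hL
    have e1 : 15 * C ^ 3 * H * L = 15 * (C ^ 3 * (H * L)) := by ring
    have e2 : F / 20 * L = F * L / 20 := by ring
    rwa [e1, e2] at this
  have t3 : H * L ≤ C * (H * L) := le_mul_of_one_le_left hHL hC
  have t4 : H * L ≤ C ^ 3 * (H * L) := le_mul_of_one_le_left hHL (one_le_pow₀ hC)
  have half : ∀ T : ℝ, 0 ≤ T → T / 2 ≤ κ * T := by
    intro T hT
    have := mul_le_mul_of_nonneg_right hκ0 hT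
    have e1 : 1 / 2 * T = T / 2 := by ring
    rwa [e1] at this
  have t6 : F * L ≤ F ^ 2 * L := mul_le_mul_of_nonneg_right (le_self_pow₀ hF2 (by norm_num)) hL
  have t8 : F * L ≤ F ^ 3 * L := mul_le_mul_of_nonneg_right (le_self_pow₀ hF2 (by norm_num)) hL
  have g1 := LJT_a1 t3 t1 (half _ hFL) hFL
  have g2 := LJT_a2 t4 t2 (half _ (hFL.trans t6)) t6 hFL
  have g3 := LJT_a3 t3 t1 (half _ (hFL.trans t8)) t8 hFL
  refine ⟨v1.trans ?_, v2.trans ?_, ?_⟩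
  · have e1 : 51 / 50 * (κ * F * L + H * L) + 21 / 20 * (3 * C * (H * L)) = 51 / 50 * (κ * (F * L) + H * L) + 63 / 20 * (C * (H * L)) := by ring
    have e2 : 2 * κ * F * (99 / 100 * L) = 198 / 100 * (κ * (F * L)) := by ring
    rw [e1, e2]
    exact g1
  · have e1 : 51 / 50 * (κ * F ^ 2 * L + H * L) + 21 / 20 * (13 * C ^ 3 * (H * L)) = 51 / 50 * (κ * (F ^ 2 * L) + H * L) + 273 / 20 * (C ^ 3 * (H * L)) := by ring
    have e2 : 2 * κ * F ^ 2 * (99 / 100 * L) = 198 / 100 * (κ * (F ^ 2 * L)) := by ring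
    rw [e1, e2]
    exact g2
  · have e1 : (lJ2 + Real.log (1 + α2)) - (lJ + Real.log (1 + α)) = (lJ2 - lJ) + (Real.log (1 + α2) - Real.log (1 + α)) := by ring
    rw [e1]
    refine ((abs_add_le _ _).trans (add_le_add hdl v3)).trans ?_
    have e3 : κ * F ^ 3 * L + 51 / 50 * (H * L) = κ * (F ^ 3 * L) + 51 / 50 * (H * L) := by ring
    have e2 : 2 * κ * F ^ 3 * (99 / 100 * L) = 198 / 100 * (κ * (F ^ 3 * L)) := by ring
    rw [e3, e2]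
    exact g3

/-! ### the data -/

theorem LJT_det (y : SL(2, ℝ)) : y.1 0 0 * y.1 1 1 - y.1 0 1 * y.1 1 0 = 1 := by
  have h := y.2
  rw [Matrix.det_fin_two] at h
  exact h

theorem LJT_nm (y : SL(2, ℝ)) : |y.1 0 0 - 1| ≤ nm y ∧ |y.1 0 1| ≤ nm y ∧ |y.1 1 0| ≤ nm y ∧ |y.1 1 1 - 1| ≤ nm y ∧ 0 ≤ nm y :=
  ⟨(le_max_left _ _).trans (le_max_left _ _), (le_max_right _ _).trans (le_max_left _ _), (le_max_left _ _).trans (le_max_right _ _),
    (le_max_right _ _).trans (le_max_right _ _), ((abs_nonneg _).trans (le_max_left _ _)).trans (le_max_left _ _)⟩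

theorem LJT_conj (y D : SL(2, ℝ)) (hy : nm y ≤ 1 / 10) : nm (y⁻¹ * D * y) ≤ 5 * nm D := by
  obtain ⟨hp, hq, hr, hs, h0⟩ := LJT_nm y
  obtain ⟨ha, hb, hc, hd, h1⟩ := LJT_nm D
  have hdet := LJT_det y
  have hinv : (y⁻¹).1 = !![y.1 1 1, -y.1 0 1; -y.1 1 0, y.1 0 0] := by
    rw [Matrix.SpecialLinearGroup.coe_inv, Matrix.adjugate_fin_two]
  have e : ∀ i j, (y⁻¹ * D * y).1 i j = ((y⁻¹).1 i 0 * D.1 0 0 + (y⁻¹).1 i 1 * D.1 1 0) * y.1 0 j + ((y⁻¹).1 i 0 * D.1 0 1 + (y⁻¹).1 i 1 * D.1 1 1) * y.1 1 j := by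
    intro i j
    rw [Matrix.SpecialLinearGroup.coe_mul, Matrix.SpecialLinearGroup.coe_mul, Matrix.mul_apply, Fin.sum_univ_two, Matrix.mul_apply, Matrix.mul_apply,
      Fin.sum_univ_two, Fin.sum_univ_two]
  set p := y.1 0 0
  set q := y.1 0 1
  set r := y.1 1 0
  set s := y.1 1 1
  set η := nm D
  have i00 : (y⁻¹).1 0 0 = s := by rw [hinv]; rfl
  have i01 : (y⁻¹).1 0 1 = -q := by rw [hinv]; rfl
  have i10 : (y⁻¹).1 1 0 = -r := by rw [hinv]; rfl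
  have i11 : (y⁻¹).1 1 1 = p := by rw [hinv]; rfl
  have bp : |p| ≤ 11 / 10 := by
    have h2 := abs_le.1 hp
    rw [abs_le]; constructor <;> linarith
  have bs : |s| ≤ 11 / 10 := by
    have h2 := abs_le.1 hs
    rw [abs_le]; constructor <;> linarith
  have bq : |q| ≤ 11 / 10 := by linarith
  have br : |r| ≤ 11 / 10 := by linarith
  have key : ∀ a1 a2 b1 b2 : ℝ, |a1| ≤ 11 / 10 → |a2| ≤ 11 / 10 → |b1| ≤ 11 / 10 → |b2| ≤ 11 / 10 →
      |(a1 * (D.1 0 0 - 1) + a2 * D.1 1 0) * b1 + (a1 * D.1 0 1 + a2 * (D.1 1 1 - 1)) * b2| ≤ 5 * η := by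
    intro a1 a2 b1 b2 ha1 ha2 hb1 hb2
    have m1 := LJT_m ha1 ha
    have m2 := LJT_m ha2 hc
    have m3 := LJT_m ha1 hb
    have m4 := LJT_m ha2 hd
    have m5 := (abs_add_le (a1 * (D.1 0 0 - 1)) (a2 * D.1 1 0)).trans (add_le_add m1 m2)
    have m6 := (abs_add_le (a1 * D.1 0 1) (a2 * (D.1 1 1 - 1))).trans (add_le_add m3 m4)
    have m7 := LJT_m m5 hb1
    have m8 := LJT_m m6 hb2
    refine ((abs_add_le _ _).trans (add_le_add m7 m8)).trans ?_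
    linarith
  have bnq : |-q| ≤ 11 / 10 := by rw [abs_neg]; exact bq
  have bnr : |-r| ≤ 11 / 10 := by rw [abs_neg]; exact br
  have c00 : (y⁻¹ * D * y).1 0 0 - 1 = (s * (D.1 0 0 - 1) + -q * D.1 1 0) * p + (s * D.1 0 1 + -q * (D.1 1 1 - 1)) * r := by
    rw [e, i00, i01]
    linear_combination hdet
  have c01 : (y⁻¹ * D * y).1 0 1 = (s * (D.1 0 0 - 1) + -q * D.1 1 0) * q + (s * D.1 0 1 + -q * (D.1 1 1 - 1)) * s := by
    rw [e, i00, i01]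
    ring
  have c10 : (y⁻¹ * D * y).1 1 0 = (-r * (D.1 0 0 - 1) + p * D.1 1 0) * p + (-r * D.1 0 1 + p * (D.1 1 1 - 1)) * r := by
    rw [e, i10, i11]
    ring
  have c11 : (y⁻¹ * D * y).1 1 1 - 1 = (-r * (D.1 0 0 - 1) + p * D.1 1 0) * q + (-r * D.1 0 1 + p * (D.1 1 1 - 1)) * s := by
    rw [e, i10, i11]
    linear_combination hdet
  unfold nm
  rw [c00, c01, c10, c11]
  exact max_le (max_le (key _ _ _ _ bs bnq bp br) (key _ _ _ _ bs bnq bq bs)) (max_le (key _ _ _ _ bnr bp bp br) (key _ _ _ _ bnr bp bq bs))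

theorem LJT_data {k C : ℝ} {D : Dyn} (hD : FK k C D) (E : ℝ) (hE : |E| ≤ k) (g : SL(2, ℝ)) :
    0 < rho D.U E g ∧ LJT_dat C (rho D.U E g) (1 / rho D.U E g) (kap D.U E g) (n1 D.U g) := by
  obtain ⟨h1, h2, -⟩ := hD.ro E g hE
  obtain ⟨h3, h4, -⟩ := hD.ka E g hE
  have hC := hD.c1
  have hC0 : 0 < C := by linarith
  have h0 : 0 < rho D.U E g := lt_of_lt_of_le (by positivity) h1
  refine ⟨h0, hC, mul_one_div_cancel h0.ne', ?_, ?_, h3, h4⟩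
  · rw [abs_of_pos h0]
    exact h2
  · rw [abs_of_pos (by positivity), div_le_iff₀ h0]
    rw [div_le_iff₀ hC0] at h1
    linarith

theorem LJT_close {k C : ℝ} {D : Dyn} (hD : FK k C D) (E E' : ℝ) (hE : |E| ≤ k) (hE' : |E'| ≤ k) (g y : SL(2, ℝ)) (hy : nm y ≤ 1 / 10) :
    LJT_cl C (nm y + |E' - E|) (rho D.U E' (g * y)) (1 / rho D.U E' (g * y)) (kap D.U E' (g * y)) (n1 D.U (g * y))
      (rho D.U E g) (1 / rho D.U E g) (kap D.U E g) (n1 D.U g) := by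
  obtain ⟨h1, h2, h3, -⟩ := hD.li E E' g y hE hE' hy
  obtain ⟨p1, d1⟩ := LJT_data hD E hE g
  obtain ⟨p2, d2⟩ := LJT_data hD E' hE' (g * y)
  have hC0 : 0 ≤ C := by linarith [hD.c1]
  have h0 : 0 ≤ nm y + |E' - E| := add_nonneg (LJT_nm y).2.2.2.2 (abs_nonneg _)
  refine ⟨h0, h1, ?_, h2, h3.trans ?_⟩
  · have e1 : 1 / rho D.U E' (g * y) - 1 / rho D.U E g = -(rho D.U E' (g * y) - rho D.U E g) * (1 / rho D.U E' (g * y)) * (1 / rho D.U E g) := by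
      field_simp
      ring
    rw [e1]
    have k1 : |-(rho D.U E' (g * y) - rho D.U E g)| ≤ C * (nm y + |E' - E|) := by rw [abs_neg]; exact h1
    refine (LJT_m (LJT_m k1 d2.ib) d1.ib).trans (le_of_eq ?_)
    ring
  · apply mul_le_mul_of_nonneg_left _ hC0
    linarith [abs_nonneg (E' - E)]

/-- continuity along a curve -/
theorem LJT_cont {k C : ℝ} {D : Dyn} (hD : FK k C D) (E : ℝ) (hE : |E| ≤ k) (γ : ℝ → SL(2, ℝ)) (hγ : ∀ i j, Continuous fun v => (γ v).1 i j) :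
    Continuous fun v => rho D.U E (γ v) := by
  rw [continuous_iff_continuousAt]
  intro v
  have e : ∀ i j, Continuous fun w => ((γ v)⁻¹ * γ w).1 i j := by
    intro i j
    have h1 : (fun w => ((γ v)⁻¹ * γ w).1 i j) = fun w => ((γ v)⁻¹).1 i 0 * (γ w).1 0 j + ((γ v)⁻¹).1 i 1 * (γ w).1 1 j := by
      funext w
      rw [Matrix.SpecialLinearGroup.coe_mul, Matrix.mul_apply, Fin.sum_univ_two]
    rw [h1]
    exact ((hγ 0 j).const_mul _).add ((hγ 1 j).const_mul _)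
  have hc : Continuous fun w => nm ((γ v)⁻¹ * γ w) := by
    unfold nm
    exact (((e 0 0).sub continuous_const).abs.max (e 0 1).abs).max ((e 1 0).abs.max ((e 1 1).sub continuous_const).abs)
  have h0 : nm ((γ v)⁻¹ * γ v) = 0 := by
    rw [inv_mul_cancel]
    unfold nm
    simp
  have ht : Tendsto (fun w => nm ((γ v)⁻¹ * γ w)) (𝓝 v) (𝓝 0) := by
    have := hc.tendsto v
    rwa [h0] at this
  have hev : ∀ᶠ w in 𝓝 v, nm ((γ v)⁻¹ * γ w) ≤ 1 / 10 := by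
    have := ht.eventually (gt_mem_nhds (show (0 : ℝ) < 1 / 10 by norm_num))
    exact this.mono fun w hw => le_of_lt hw
  show Tendsto (fun w => rho D.U E (γ w)) (𝓝 v) (𝓝 (rho D.U E (γ v)))
  rw [tendsto_iff_norm_sub_tendsto_zero]
  refine squeeze_zero' (Eventually.of_forall fun w => norm_nonneg _) (hev.mono fun w hw => ?_) (show Tendsto (fun w => C * nm ((γ v)⁻¹ * γ w)) (𝓝 v) (𝓝 0) from ?_)
  · have h1 := (hD.li E E (γ v) ((γ v)⁻¹ * γ w) hE hE hw).1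
    rw [mul_inv_cancel_left, sub_self, abs_zero, add_zero] at h1
    exact h1
  · have := ht.const_mul C
    rwa [mul_zero] at this

/-! ### the four parts -/

theorem LJT_mono {C κ : ℝ} {D : Dyn} {E : ℝ} {γ : ℝ → SL(2, ℝ)} {x b c ℓ : ℝ → ℝ} (h : CN C κ D E γ x b c ℓ) (v v' : ℝ) (hv : v ≤ v') : ℓ v ≤ ℓ v' := by
  have h1 : Monotone ℓ := monotone_of_deriv_nonneg (fun v => (h.dl v).differentiableAt) (fun v => by
    rw [(h.dl v).deriv]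
    exact (h.pos v).le)
  exact h1 hv

theorem LJT_cone {C κ κ' : ℝ} {D : Dyn} {E : ℝ} {γ : ℝ → SL(2, ℝ)} {x b c ℓ : ℝ → ℝ} (hC : 1 ≤ C) (hκ : 0 < κ) (hκ' : κ ≤ κ') (h : CN C κ D E γ x b c ℓ) :
    CN C κ' D E γ x b c ℓ := by
  have hC0 : 0 < C := by linarith
  have hle : (1 + κ) * C ≤ (1 + κ') * C := mul_le_mul_of_nonneg_right (by linarith) hC0.le
  have hW : ∀ v, 0 < Wc D.U E (γ v) (x v) (b v) (c v) := by
    intro v
    by_contra h1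
    have h2 : (1 + κ) * C * Wc D.U E (γ v) (x v) (b v) (c v) ≤ 0 := mul_nonpos_of_nonneg_of_nonpos (by positivity) (not_lt.1 h1)
    have h3 := h.cl v
    have h4 := h.pos v
    linarith
  refine { h with cl := fun v => ?_, cu := fun v => ?_, cs := fun v => ?_ }
  · exact (h.cl v).trans (mul_le_mul_of_nonneg_right hle (hW v).le)
  · exact (h.cu v).trans (mul_le_mul_of_nonneg_right hle (h.pos v).le)
  · refine (h.cs v).trans (mul_le_mul_of_nonneg_right ?_ (h.pos v).le)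
    exact mul_le_mul_of_nonneg_right (by linarith) (by positivity)

/-- part 1 -/
theorem LJT_one (hLDR : LDR_stmt) {k C F : ℝ} {D : Dyn} (hD : FK k C D) (hF : FM C ≤ F) (E : ℝ) (hE : |E| ≤ k) (κ E' : ℝ) (γ : ℝ → SL(2, ℝ)) (x b c ℓ : ℝ → ℝ)
    (y : SL(2, ℝ)) (hκ : κ = 1 / 2 ∨ κ = 1) (hE' : |E'| ≤ k) (hEE : |E' - E| ≤ 1 / F ^ 3) (h : RN C F κ D E γ x b c ℓ) (hy : nm y ≤ 1 / F ^ 3) :
    ∃ x' b' c' ℓ' : ℝ → ℝ, RN C F (2 * κ) D E' (fun v => γ v * y) x' b' c' ℓ' ∧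
      ∀ v v' : ℝ, v ≤ v' → 1 / 2 * (ℓ v' - ℓ v) ≤ ℓ' v' - ℓ' v ∧ ℓ' v' - ℓ' v ≤ 2 * (ℓ v' - ℓ v) := by
  have hC := hD.c1
  have hC0 : 0 < C := by linarith
  obtain ⟨s1, s2, s3, s4, s5⟩ := LJT_sm hC hF
  obtain ⟨-, hF1⟩ := LJT_F hC hF
  have hF0 : 0 < F := by linarith
  have hdet := LJT_det y
  obtain ⟨hp, hq, hr, hs, hn0⟩ := LJT_nm y
  have hy1 : nm y ≤ 1 / 10 := hy.trans s3
  have hκ0 : 1 / 2 ≤ κ := by rcases hκ with h | h <;> rw [h]; norm_num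
  have hκ1 : κ ≤ 1 := by rcases hκ with h | h <;> rw [h]; norm_num
  obtain ⟨e, he⟩ : ∃ e : ℝ, e = 100 * C ^ 9 * (2 / F ^ 3) := ⟨_, rfl⟩
  rw [← he] at s1 s2
  -- the new coordinates
  obtain ⟨x', hx'⟩ : ∃ x' : ℝ → ℝ, ∀ v, x' v = x v * (y.1 0 0 * y.1 1 1 + y.1 0 1 * y.1 1 0) + 2 * b v * (y.1 1 0 * y.1 1 1) - 2 * c v * (y.1 0 0 * y.1 0 1) :=
    ⟨fun v => _, fun v => rfl⟩
  obtain ⟨b', hb'⟩ : ∃ b' : ℝ → ℝ, ∀ v, b' v = x v * (y.1 0 1 * y.1 1 1) + b v * (y.1 1 1 * y.1 1 1) - c v * (y.1 0 1 * y.1 0 1) := ⟨fun v => _, fun v => rfl⟩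
  obtain ⟨c', hc'⟩ : ∃ c' : ℝ → ℝ, ∀ v, c' v = c v * y.1 0 0 ^ 2 - x v * (y.1 0 0 * y.1 1 0) - b v * (y.1 1 0 * y.1 1 0) := ⟨fun v => _, fun v => rfl⟩
  have cx := h.cx
  have cb := h.cb
  have cc := h.cc
  have cx' : Continuous x' := by
    rw [show x' = _ from funext hx']
    fun_prop
  have cb' : Continuous b' := by
    rw [show b' = _ from funext hb']
    fun_prop
  have cc' : Continuous c' := by
    rw [show c' = _ from funext hc']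
    fun_prop
  have hγc : ∀ i j, Continuous fun v => (γ v).1 i j := fun i j => by
    rw [continuous_iff_continuousAt]
    exact fun v => (h.der v i j).continuousAt
  have hγyc : ∀ i j, Continuous fun v => (γ v * y).1 i j := by
    intro i j
    have h1 : (fun v => (γ v * y).1 i j) = fun v => (γ v).1 i 0 * y.1 0 j + (γ v).1 i 1 * y.1 1 j := by
      funext v
      rw [Matrix.SpecialLinearGroup.coe_mul, Matrix.mul_apply, Fin.sum_univ_two]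
    rw [h1]
    exact ((hγc i 0).mul_const _).add ((hγc i 1).mul_const _)
  have cJ' : Continuous fun v => Jc D.U E' (γ v * y) (b' v) (c' v) := by
    unfold Jc
    exact ((LJT_cont hD E' hE' (fun v => γ v * y) hγyc).mul (cb'.add cc')).neg
  obtain ⟨ℓ', hℓ'⟩ : ∃ ℓ' : ℝ → ℝ, ∀ v, HasDerivAt ℓ' (Jc D.U E' (γ v * y) (b' v) (c' v)) v :=
    ⟨fun v => ∫ t in (0 : ℝ)..v, Jc D.U E' (γ t * y) (b' t) (c' t), fun v =>
      intervalIntegral.integral_hasDerivAt_right (cJ'.intervalIntegrable _ _) cJ'.aestronglyMeasurable.stronglyMeasurableAtFilter cJ'.continuousAt⟩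
  -- the matrix
  obtain ⟨P, hP⟩ : ∃ P : ℝ → Matrix (Fin 3) (Fin 3) ℝ, ∀ v, P v =
      LJT_N (rho D.U E' (γ v * y)) (1 / rho D.U E' (γ v * y)) (kap D.U E' (γ v * y)) (n1 D.U (γ v * y)) *
      (LJT_A (y.1 0 0) (y.1 0 1) (y.1 1 0) (y.1 1 1) * LJT_M (rho D.U E (γ v)) (1 / rho D.U E (γ v)) (kap D.U E (γ v)) (n1 D.U (γ v))) := ⟨fun v => _, fun v => rfl⟩
  have hP1 : ∀ v, LJT_bd (P v - 1) e := by
    intro v
    rw [hP v]
    have h1 := LJT_E1 (LJT_data hD E hE (γ v)).2 (LJT_data hD E' hE' (γ v * y)).2 (LJT_close hD E E' hE hE' (γ v) y hy1) (le_add_of_nonneg_right (abs_nonneg _))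
      hy1 hdet hp hq hr hs
    intro i j
    refine (h1 i j).trans ?_
    rw [he]
    apply mul_le_mul_of_nonneg_left _ (by positivity)
    have e1 : 2 / F ^ 3 = 1 / F ^ 3 + 1 / F ^ 3 := by ring
    rw [e1]
    exact add_le_add hy hEE
  have hent : ∀ v, (|P v 0 0 - 1| ≤ e ∧ |P v 0 1| ≤ e ∧ |P v 0 2| ≤ e) ∧ (|P v 1 0| ≤ e ∧ |P v 1 1 - 1| ≤ e ∧ |P v 1 2| ≤ e) ∧
      (|P v 2 0| ≤ e ∧ |P v 2 1| ≤ e ∧ |P v 2 2 - 1| ≤ e) := by
    intro v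
    have h1 := hP1 v
    refine ⟨⟨?_, ?_, ?_⟩, ⟨?_, ?_, ?_⟩, ⟨?_, ?_, ?_⟩⟩
    · simpa [Matrix.sub_apply] using h1 0 0
    · simpa [Matrix.sub_apply] using h1 0 1
    · simpa [Matrix.sub_apply] using h1 0 2
    · simpa [Matrix.sub_apply] using h1 1 0
    · simpa [Matrix.sub_apply] using h1 1 1
    · simpa [Matrix.sub_apply] using h1 1 2
    · simpa [Matrix.sub_apply] using h1 2 0
    · simpa [Matrix.sub_apply] using h1 2 1
    · simpa [Matrix.sub_apply] using h1 2 2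
  -- the slopes
  obtain ⟨J, hJ⟩ : ∃ J : ℝ → ℝ, ∀ v, J v = Jc D.U E (γ v) (b v) (c v) := ⟨fun v => _, fun v => rfl⟩
  obtain ⟨u, hu⟩ : ∃ u : ℝ → ℝ, ∀ v, u v = Wc D.U E (γ v) (x v) (b v) (c v) / J v := ⟨fun v => _, fun v => rfl⟩
  obtain ⟨ξ, hξ⟩ : ∃ ξ : ℝ → ℝ, ∀ v, ξ v = Sc D.U E (γ v) (x v) / J v := ⟨fun v => _, fun v => rfl⟩
  have hJ0 : ∀ v, 0 < J v := fun v => by rw [hJ v]; exact h.pos v
  have hu1 : ∀ v, 1 ≤ (1 + κ) * C * u v := by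
    intro v
    have h1 := h.cl v
    rw [← hJ v] at h1
    rw [hu v, ← mul_div_assoc, le_div_iff₀ (hJ0 v), one_mul]
    exact h1
  have hu2 : ∀ v, u v ≤ (1 + κ) * C := by
    intro v
    have h1 := h.cu v
    rw [← hJ v] at h1
    rw [hu v, div_le_iff₀ (hJ0 v)]
    exact h1
  have hξ1 : ∀ v, |ξ v| ≤ (1 + κ) * (6 * C ^ 3) := by
    intro v
    have h1 := h.cs v
    rw [← hJ v] at h1
    rw [hξ v, abs_div, abs_of_pos (hJ0 v), div_le_iff₀ (hJ0 v)]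
    exact h1
  obtain ⟨j, hj⟩ : ∃ j : ℝ → ℝ, ∀ v, j v = 1 + ((P v 0 0 - 1) + P v 0 1 * u v + P v 0 2 * ξ v) := ⟨fun v => _, fun v => rfl⟩
  obtain ⟨w, hw⟩ : ∃ w : ℝ → ℝ, ∀ v, w v = u v + (P v 1 0 + (P v 1 1 - 1) * u v + P v 1 2 * ξ v) := ⟨fun v => _, fun v => rfl⟩
  obtain ⟨t, ht⟩ : ∃ t : ℝ → ℝ, ∀ v, t v = ξ v + (P v 2 0 + P v 2 1 * u v + (P v 2 2 - 1) * ξ v) := ⟨fun v => _, fun v => rfl⟩
  have hvec : ∀ v, Jc D.U E' (γ v * y) (b' v) (c' v) = J v * j v ∧ Wc D.U E' (γ v * y) (x' v) (b' v) (c' v) = J v * w v ∧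
      Sc D.U E' (γ v * y) (x' v) = J v * t v := by
    intro v
    obtain ⟨h1, h2, h3⟩ := LJT_vec D.U E E' (γ v) (γ v * y) (x v) (b v) (c v) (y.1 0 0) (y.1 0 1) (y.1 1 0) (y.1 1 1) (LJT_data hD E hE (γ v)).1.ne' (P v) (hP v)
      (x' v) (b' v) (c' v) (hx' v) (hb' v) (hc' v)
    have hW : Wc D.U E (γ v) (x v) (b v) (c v) = J v * u v := by rw [hu v, mul_div_cancel₀ _ (hJ0 v).ne']
    have hS : Sc D.U E (γ v) (x v) = J v * ξ v := by rw [hξ v, mul_div_cancel₀ _ (hJ0 v).ne']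
    rw [← hJ v, hW, hS] at h1 h2 h3
    refine ⟨?_, ?_, ?_⟩
    · rw [h1, hj v]; ring
    · rw [h2, hw v]; ring
    · rw [h3, ht v]; ring
  have hpt : ∀ v, |j v - 1| ≤ 1 / 100 ∧ j v ≤ (1 + 2 * κ) * C * w v ∧ w v ≤ (1 + 2 * κ) * C * j v ∧ |t v| ≤ (1 + 2 * κ) * (6 * C ^ 3) * j v := by
    intro v
    obtain ⟨⟨a0, a1, a2⟩, ⟨b0, b1, b2⟩, ⟨c0, c1, c2⟩⟩ := hent v
    obtain ⟨p1, p2, p3, p4, -⟩ := LJT_pt hC hκ s1 a0 a1 a2 b0 b1 b2 c0 c1 c2 (hu1 v) (hu2 v) (hξ1 v)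
    rw [hj v, hw v, ht v]
    exact ⟨p1, p2, p3, p4⟩
  have hj1 : ∀ v, 99 / 100 ≤ j v ∧ j v ≤ 101 / 100 := by
    intro v
    have h1 := abs_le.1 (hpt v).1
    constructor <;> linarith
  have hlen : ∀ v v' : ℝ, v ≤ v' → 99 / 100 * (ℓ v' - ℓ v) ≤ ℓ' v' - ℓ' v ∧ ℓ' v' - ℓ' v ≤ 101 / 100 * (ℓ v' - ℓ v) := by
    intro v v' hv
    have hbd : ∀ v, 99 / 100 * Jc D.U E (γ v) (b v) (c v) ≤ Jc D.U E' (γ v * y) (b' v) (c' v) ∧
        Jc D.U E' (γ v * y) (b' v) (c' v) ≤ 101 / 100 * Jc D.U E (γ v) (b v) (c v) := by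
      intro v
      rw [(hvec v).1, ← hJ v, mul_comm (99 / 100), mul_comm (101 / 100)]
      exact ⟨mul_le_mul_of_nonneg_left (hj1 v).1 (hJ0 v).le, mul_le_mul_of_nonneg_left (hj1 v).2 (hJ0 v).le⟩
    have m1 : Monotone (fun v => ℓ' v - 99 / 100 * ℓ v) := by
      have h1 : ∀ v, HasDerivAt (fun v => ℓ' v - 99 / 100 * ℓ v) (Jc D.U E' (γ v * y) (b' v) (c' v) - 99 / 100 * Jc D.U E (γ v) (b v) (c v)) v := fun v =>
        (hℓ' v).sub ((h.dl v).const_mul _)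
      refine monotone_of_deriv_nonneg (fun v => (h1 v).differentiableAt) (fun v => ?_)
      rw [(h1 v).deriv]
      linarith [(hbd v).1]
    have m2 : Monotone (fun v => 101 / 100 * ℓ v - ℓ' v) := by
      have h1 : ∀ v, HasDerivAt (fun v => 101 / 100 * ℓ v - ℓ' v) (101 / 100 * Jc D.U E (γ v) (b v) (c v) - Jc D.U E' (γ v * y) (b' v) (c' v)) v := fun v =>
        ((h.dl v).const_mul _).sub (hℓ' v)
      refine monotone_of_deriv_nonneg (fun v => (h1 v).differentiableAt) (fun v => ?_)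
      rw [(h1 v).deriv]
      linarith [(hbd v).2]
    have h1 := m1 hv
    have h2 := m2 hv
    simp only at h1 h2
    constructor <;> linarith
  -- the two points
  have hmono := LJT_mono h.toCN
  have htwo : ∀ v v' : ℝ, v ≤ v' → 2 * κ * (ℓ' v' - ℓ' v) ≤ 1 / F ^ 4 →
      |w v / j v - w v' / j v'| ≤ 2 * κ * F * (ℓ' v' - ℓ' v) ∧ |t v / j v - t v' / j v'| ≤ 2 * κ * F ^ 2 * (ℓ' v' - ℓ' v) ∧
      |(Real.log (J v') + Real.log (j v')) - (Real.log (J v) + Real.log (j v))| ≤ 2 * κ * F ^ 3 * (ℓ' v' - ℓ' v) := by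
    intro v v' hv hle
    obtain ⟨l1, l2⟩ := hlen v v' hv
    have l0 := hmono v v' hv
    have hL : 0 ≤ ℓ v' - ℓ v := by linarith
    have hκL : κ * (ℓ v' - ℓ v) ≤ 1 / F ^ 4 := by
      refine le_trans ?_ hle
      have h1 : κ * (ℓ v' - ℓ v) ≤ κ * (2 * (ℓ' v' - ℓ' v)) := mul_le_mul_of_nonneg_left (by linarith) (by linarith)
      linarith
    have hsu := h.su v v' hv hκL
    have hss := h.ss v v' hv hκL
    have hdi := h.di v v' hv hκL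
    rw [← hJ v, ← hJ v', ← hu v, ← hu v'] at hsu
    rw [← hJ v, ← hJ v', ← hξ v, ← hξ v'] at hss
    rw [← hJ v, ← hJ v'] at hdi
    -- the distance of the two points
    have hL20 : ℓ v' - ℓ v ≤ 1 / (10 * C) ^ 20 := by
      have h1 : ℓ v' - ℓ v ≤ 2 * (1 / F ^ 4) := by
        have h2 : 1 / 2 * (ℓ v' - ℓ v) ≤ κ * (ℓ v' - ℓ v) := mul_le_mul_of_nonneg_right hκ0 hL
        linarith
      refine h1.trans ?_
      rw [le_div_iff₀ (by positivity)]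
      have e1 : 2 * (1 / F ^ 4) * (10 * C) ^ 20 = 2 * 10 ^ 20 * C ^ 20 / F ^ 4 := by
        field_simp
        try ring
      rw [e1, div_le_one (by positivity)]
      have k20 := LJT_Fk hC hF 20 (by norm_num)
      have k21 : F ≤ F ^ 4 := le_self_pow₀ hF1 (by norm_num)
      have k22 : 0 ≤ C ^ 20 := by positivity
      linarith
    obtain ⟨hη, -⟩ := hLDR k C D hD E γ x b c ℓ hE (LJT_cone hC (by linarith) (by linarith) h.toCN) v v' hv hL20 ((γ v)⁻¹ * γ v') rfl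
    have hη10 : 5 * nm ((γ v)⁻¹ * γ v') ≤ 1 / 10 := by
      have h1 : 100 * C ^ 4 * (ℓ v' - ℓ v) ≤ 100 * C ^ 4 * (1 / (10 * C) ^ 20) := mul_le_mul_of_nonneg_left hL20 (by positivity)
      have e1 : 100 * C ^ 4 * (1 / (10 * C) ^ 20) = 100 / 10 ^ 20 * (1 / C ^ 16) := by
        field_simp
        try ring
      have h2 : 1 / C ^ 16 ≤ 1 := by
        rw [div_le_one (by positivity)]
        exact one_le_pow₀ hC
      rw [e1] at h1
      have h3 : 100 / 10 ^ 20 * (1 / C ^ 16) ≤ 100 / 10 ^ 20 * 1 := mul_le_mul_of_nonneg_left h2 (by norm_num)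
      have h4 : nm ((γ v)⁻¹ * γ v') ≤ 100 / 10 ^ 20 * 1 := hη.trans (h1.trans h3)
      norm_num at h4 ⊢
      linarith
    have hη0 := (LJT_nm ((γ v)⁻¹ * γ v')).2.2.2.2
    have hconj := LJT_conj y ((γ v)⁻¹ * γ v') hy1
    -- closeness of the data
    have cl1 := LJT_close hD E E hE hE (γ v) ((γ v)⁻¹ * γ v') (by linarith)
    rw [mul_inv_cancel_left, sub_self, abs_zero, add_zero] at cl1
    have cl2 := LJT_close hD E' E' hE' hE' (γ v * y) (y⁻¹ * ((γ v)⁻¹ * γ v') * y) (by linarith)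
    have e1 : γ v * y * (y⁻¹ * ((γ v)⁻¹ * γ v') * y) = γ v' * y := by group
    rw [e1, sub_self, abs_zero, add_zero] at cl2
    have cl3 : LJT_cl C (5 * nm ((γ v)⁻¹ * γ v')) (rho D.U E' (γ v' * y)) (1 / rho D.U E' (γ v' * y)) (kap D.U E' (γ v' * y)) (n1 D.U (γ v' * y))
        (rho D.U E' (γ v * y)) (1 / rho D.U E' (γ v * y)) (kap D.U E' (γ v * y)) (n1 D.U (γ v * y)) := by
      obtain ⟨a0, a1, a2, a3, a4⟩ := cl2
      exact ⟨by positivity, a1.trans (mul_le_mul_of_nonneg_left hconj hC0.le), a2.trans (mul_le_mul_of_nonneg_left hconj (by positivity)),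
        a3.trans (mul_le_mul_of_nonneg_left hconj hC0.le), a4.trans (mul_le_mul_of_nonneg_left hconj hC0.le)⟩
    have hE2 := LJT_E2 (LJT_data hD E hE (γ v)).2 (LJT_data hD E' hE' (γ v * y)).2 (LJT_data hD E hE (γ v')).2 (LJT_data hD E' hE' (γ v' * y)).2 cl1 cl3 hy1 hdet hp hq hr hs
    rw [← hP v, ← hP v'] at hE2
    have hPd : ∀ i j, |P v' i j - P v i j| ≤ 30000 * C ^ 13 * (ℓ v' - ℓ v) := by
      intro i j
      have h1 := hE2 i j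
      rw [Matrix.sub_apply] at h1
      refine h1.trans ?_
      have h2 := mul_le_mul_of_nonneg_left hη (show 0 ≤ 300 * C ^ 9 by positivity)
      refine h2.trans (le_of_eq ?_)
      ring
    have hs1 : ∀ a b : ℝ, (a - 1) - (b - 1) = a - b := fun a b => by ring
    obtain ⟨⟨a0, a1, a2⟩, ⟨b0, b1, b2⟩, ⟨c0, c1, c2⟩⟩ := hent v
    obtain ⟨⟨A0, A1, A2⟩, ⟨B0, B1, B2⟩, ⟨C0, C1, C2⟩⟩ := hent v'
    obtain ⟨f1, f2, f3⟩ := LJT_fin hC hF hκ he hL a0 a1 a2 b0 b1 b2 c0 c1 c2 A0 A1 A2 B0 B1 B2 C0 C1 C2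
      (by rw [hs1]; exact hPd 0 0) (hPd 0 1) (hPd 0 2) (hPd 1 0) (by rw [hs1]; exact hPd 1 1) (hPd 1 2) (hPd 2 0) (hPd 2 1) (by rw [hs1]; exact hPd 2 2)
      (hu1 v) (hu2 v) (hξ1 v) (hu1 v') (hu2 v') (hξ1 v') hsu hss hdi
    rw [← hj v, ← hj v', ← hw v, ← hw v'] at f1
    rw [← hj v, ← hj v', ← ht v, ← ht v'] at f2
    rw [← hj v, ← hj v'] at f3
    have hκp : 0 ≤ κ := by linarith
    refine ⟨f1.trans (mul_le_mul_of_nonneg_left l1 (by positivity)), f2.trans (mul_le_mul_of_nonneg_left l1 (by positivity)),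
      f3.trans (mul_le_mul_of_nonneg_left l1 (by positivity))⟩
  refine ⟨x', b', c', ℓ', ⟨⟨⟨?_, cx', cb', cc'⟩, ?_, hℓ', ?_, ?_, ?_⟩, ?_, ?_, ?_⟩, ?_⟩
  · -- the derivative
    intro v i j
    have hd : ∀ k l, HasDerivAt (fun s => (γ s).1 k l) (((γ v).1 * !![x v / 2, b v; c v, -(x v / 2)]) k l) v := h.der v
    have key : y.1 * !![x' v / 2, b' v; c' v, -(x' v / 2)] = !![x v / 2, b v; c v, -(x v / 2)] * y.1 := by
      ext k l
      rw [Matrix.mul_apply, Matrix.mul_apply, Fin.sum_univ_two, Fin.sum_univ_two]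
      fin_cases k <;> fin_cases l
      · show y.1 0 0 * (x' v / 2) + y.1 0 1 * c' v = x v / 2 * y.1 0 0 + b v * y.1 1 0
        rw [hx', hc']
        linear_combination (x v / 2 * y.1 0 0 + b v * y.1 1 0) * hdet
      · show y.1 0 0 * b' v + y.1 0 1 * (-(x' v / 2)) = x v / 2 * y.1 0 1 + b v * y.1 1 1
        rw [hx', hb']
        linear_combination (x v / 2 * y.1 0 1 + b v * y.1 1 1) * hdet
      · show y.1 1 0 * (x' v / 2) + y.1 1 1 * c' v = c v * y.1 0 0 + -(x v / 2) * y.1 1 0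
        rw [hx', hc']
        linear_combination (c v * y.1 0 0 - x v / 2 * y.1 1 0) * hdet
      · show y.1 1 0 * b' v + y.1 1 1 * (-(x' v / 2)) = c v * y.1 0 1 + -(x v / 2) * y.1 1 1
        rw [hx', hb']
        linear_combination (c v * y.1 0 1 - x v / 2 * y.1 1 1) * hdet
    have e1 : (fun s => (γ s * y).1 i j) = fun s => (γ s).1 i 0 * y.1 0 j + (γ s).1 i 1 * y.1 1 j := by
      funext s
      rw [Matrix.SpecialLinearGroup.coe_mul, Matrix.mul_apply, Fin.sum_univ_two]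
    have e2 : ((γ v * y).1 * !![x' v / 2, b' v; c' v, -(x' v / 2)]) i j =
        ((γ v).1 * !![x v / 2, b v; c v, -(x v / 2)]) i 0 * y.1 0 j + ((γ v).1 * !![x v / 2, b v; c v, -(x v / 2)]) i 1 * y.1 1 j := by
      rw [Matrix.SpecialLinearGroup.coe_mul, Matrix.mul_assoc, key, ← Matrix.mul_assoc, Matrix.mul_apply, Fin.sum_univ_two]
    show HasDerivAt (fun s => (γ s * y).1 i j) (((γ v * y).1 * !![x' v / 2, b' v; c' v, -(x' v / 2)]) i j) v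
    rw [e1, e2]
    exact ((hd i 0).mul_const _).add ((hd i 1).mul_const _)
  · intro v
    rw [(hvec v).1]
    exact mul_pos (hJ0 v) (by linarith [(hj1 v).1])
  · intro v
    rw [(hvec v).1, (hvec v).2.1]
    have := mul_le_mul_of_nonneg_left (hpt v).2.1 (hJ0 v).le
    linarith
  · intro v
    rw [(hvec v).1, (hvec v).2.1]
    have := mul_le_mul_of_nonneg_left (hpt v).2.2.1 (hJ0 v).le
    linarith
  · intro v
    rw [(hvec v).1, (hvec v).2.2, abs_mul, abs_of_pos (hJ0 v)]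
    have := mul_le_mul_of_nonneg_left (hpt v).2.2.2 (hJ0 v).le
    linarith
  · intro v v' hv hle
    rw [(hvec v).1, (hvec v).2.1, (hvec v').1, (hvec v').2.1, mul_div_mul_left _ _ (hJ0 v).ne', mul_div_mul_left _ _ (hJ0 v').ne']
    exact (htwo v v' hv hle).1
  · intro v v' hv hle
    rw [(hvec v).1, (hvec v).2.2, (hvec v').1, (hvec v').2.2, mul_div_mul_left _ _ (hJ0 v).ne', mul_div_mul_left _ _ (hJ0 v').ne']
    exact (htwo v v' hv hle).2.1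
  · intro v v' hv hle
    rw [(hvec v).1, (hvec v').1, Real.log_mul (hJ0 v').ne' (by linarith [(hj1 v').1]), Real.log_mul (hJ0 v).ne' (by linarith [(hj1 v).1])]
    exact (htwo v v' hv hle).2.2
  · intro v v' hv
    have h1 := hlen v v' hv
    have h2 := hmono v v' hv
    constructor <;> linarith

/-- the matrix `-1` acts trivially -/
theorem LJT_neg (U : ℍ → ℝ) (E : ℝ) (g : SL(2, ℝ)) : rho U E (ngM * g) = rho U E g ∧ kap U E (ngM * g) = kap U E g ∧ n1 U (ngM * g) = n1 U g := by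
  have hz : ∀ z : ℍ, (ngM * g) • z = g • z := by
    intro z
    have h1 : ngM = -1 := by
      apply Subtype.ext
      rw [Matrix.SpecialLinearGroup.coe_neg, Matrix.SpecialLinearGroup.coe_one]
      show !![(-1 : ℝ), 0; 0, -1] = -1
      ext i j
      fin_cases i <;> fin_cases j <;> simp
    rw [h1, neg_one_mul]
    apply UpperHalfPlane.ext
    rw [UpperHalfPlane.coe_specialLinearGroup_apply, UpperHalfPlane.coe_specialLinearGroup_apply]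
    have h2 : ∀ i j, (-g : SL(2, ℝ)).1 i j = -(g.1 i j) := fun i j => rfl
    simp only [h2, Algebra.algebraMap_self, RingHom.id_apply, Complex.ofReal_neg]
    rw [neg_mul, neg_mul, ← neg_add, ← neg_add, neg_div_neg_eq]
  have hU : Ug U (ngM * g) = Ug U g := by
    funext v
    unfold Ug
    rw [hz]
  have h1 : rho U E (ngM * g) = rho U E g := by
    unfold rho
    rw [hz]
  refine ⟨h1, ?_, ?_⟩
  · unfold kap n2
    rw [h1, hU]
  · unfold n1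
    rw [hU]

/-- part 2 -/
theorem LJT_two {C F κ : ℝ} {D : Dyn} {E : ℝ} {γ : ℝ → SL(2, ℝ)} {x b c ℓ : ℝ → ℝ} (h : RN C F κ D E γ x b c ℓ) : RN C F κ D E (fun v => ngM * γ v) x b c ℓ := by
  have hJ : ∀ v, Jc D.U E (ngM * γ v) (b v) (c v) = Jc D.U E (γ v) (b v) (c v) := fun v => by
    unfold Jc
    rw [(LJT_neg D.U E (γ v)).1]
  have hW : ∀ v, Wc D.U E (ngM * γ v) (x v) (b v) (c v) = Wc D.U E (γ v) (x v) (b v) (c v) := fun v => by
    unfold Wc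
    obtain ⟨h1, h2, h3⟩ := LJT_neg D.U E (γ v)
    rw [h1, h2, h3]
  have hS : ∀ v, Sc D.U E (ngM * γ v) (x v) = Sc D.U E (γ v) (x v) := fun v => by
    unfold Sc
    rw [(LJT_neg D.U E (γ v)).1]
  refine ⟨⟨⟨?_, h.cx, h.cb, h.cc⟩, ?_, ?_, ?_, ?_, ?_⟩, ?_, ?_, ?_⟩
  · intro v i j
    have hd : ∀ k l, HasDerivAt (fun s => (γ s).1 k l) (((γ v).1 * !![x v / 2, b v; c v, -(x v / 2)]) k l) v := h.der v
    have e1 : (fun s => (ngM * γ s).1 i j) = fun s => ngM.1 i 0 * (γ s).1 0 j + ngM.1 i 1 * (γ s).1 1 j := by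
      funext s
      rw [Matrix.SpecialLinearGroup.coe_mul, Matrix.mul_apply, Fin.sum_univ_two]
    have e2 : ((ngM * γ v).1 * !![x v / 2, b v; c v, -(x v / 2)]) i j =
        ngM.1 i 0 * ((γ v).1 * !![x v / 2, b v; c v, -(x v / 2)]) 0 j + ngM.1 i 1 * ((γ v).1 * !![x v / 2, b v; c v, -(x v / 2)]) 1 j := by
      rw [Matrix.SpecialLinearGroup.coe_mul, Matrix.mul_assoc, Matrix.mul_apply, Fin.sum_univ_two]
    show HasDerivAt (fun s => (ngM * γ s).1 i j) (((ngM * γ v).1 * !![x v / 2, b v; c v, -(x v / 2)]) i j) v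
    rw [e1, e2]
    exact ((hd 0 j).const_mul _).add ((hd 1 j).const_mul _)
  · intro v
    rw [hJ]
    exact h.pos v
  · intro v
    rw [hJ]
    exact h.dl v
  · intro v
    rw [hJ, hW]
    exact h.cl v
  · intro v
    rw [hJ, hW]
    exact h.cu v
  · intro v
    rw [hJ, hS]
    exact h.cs v
  · intro v v' hv hle
    rw [hJ, hW, hJ, hW]
    exact h.su v v' hv hle
  · intro v v' hv hle
    rw [hJ, hS, hJ, hS]
    exact h.ss v v' hv hle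
  · intro v v' hv hle
    rw [hJ, hJ]
    exact h.di v v' hv hle

/-- part 3 -/
theorem LJT_three {C F κ κ' : ℝ} {D : Dyn} {E : ℝ} {γ : ℝ → SL(2, ℝ)} {x b c ℓ : ℝ → ℝ} (hC : 1 ≤ C) (hF : 0 < F) (hκ : 0 < κ) (hκ' : κ ≤ κ')
    (h : RN C F κ D E γ x b c ℓ) : RN C F κ' D E γ x b c ℓ := by
  have key : ∀ v v' : ℝ, v ≤ v' → ∀ T : ℝ, 0 ≤ T → κ * T * (ℓ v' - ℓ v) ≤ κ' * T * (ℓ v' - ℓ v) := by
    intro v v' hv T hT
    have h0 := LJT_mono h.toCN v v' hv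
    exact mul_le_mul_of_nonneg_right (mul_le_mul_of_nonneg_right hκ' hT) (by linarith)
  have key1 : ∀ v v' : ℝ, v ≤ v' → κ' * (ℓ v' - ℓ v) ≤ 1 / F ^ 4 → κ * (ℓ v' - ℓ v) ≤ 1 / F ^ 4 := by
    intro v v' hv hle
    have h1 := key v v' hv 1 zero_le_one
    rw [mul_one, mul_one] at h1
    exact h1.trans hle
  refine ⟨LJT_cone hC hκ hκ' h.toCN, ?_, ?_, ?_⟩
  · intro v v' hv hle
    exact (h.su v v' hv (key1 v v' hv hle)).trans (key v v' hv F hF.le)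
  · intro v v' hv hle
    exact (h.ss v v' hv (key1 v v' hv hle)).trans (key v v' hv (F ^ 2) (by positivity))
  · intro v v' hv hle
    exact (h.di v v' hv (key1 v v' hv hle)).trans (key v v' hv (F ^ 3) (by positivity))

/-- part 4 -/
theorem LJT_four {C F κ κ' : ℝ} {D : Dyn} {E : ℝ} {γ : ℝ → SL(2, ℝ)} {x b c ℓ x' b' c' ℓ' : ℝ → ℝ} (h : RN C F κ D E γ x b c ℓ) (h' : RN C F κ' D E γ x' b' c' ℓ') :
    x = x' ∧ b = b' ∧ c = c' ∧ ∀ v v' : ℝ, ℓ v' - ℓ v = ℓ' v' - ℓ' v := by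
  have key : ∀ v, !![x v / 2, b v; c v, -(x v / 2)] = !![x' v / 2, b' v; c' v, -(x' v / 2)] := by
    intro v
    have h1 : (γ v).1 * !![x v / 2, b v; c v, -(x v / 2)] = (γ v).1 * !![x' v / 2, b' v; c' v, -(x' v / 2)] := by
      ext i j
      exact (h.der v i j).unique (h'.der v i j)
    have h2 := congrArg (fun M => (γ v)⁻¹.1 * M) h1
    simp only [← Matrix.mul_assoc] at h2
    rw [← Matrix.SpecialLinearGroup.coe_mul, inv_mul_cancel, Matrix.SpecialLinearGroup.coe_one, Matrix.one_mul, Matrix.one_mul] at h2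
    exact h2
  have hx : x = x' := by
    funext v
    have h1 := congrFun (congrFun (key v) 0) 0
    have h2 : x v / 2 = x' v / 2 := h1
    linarith
  have hb : b = b' := by
    funext v
    exact congrFun (congrFun (key v) 0) 1
  have hc : c = c' := by
    funext v
    exact congrFun (congrFun (key v) 1) 0
  refine ⟨hx, hb, hc, fun v v' => ?_⟩
  have h1 : ∀ v, HasDerivAt (fun v => ℓ v - ℓ' v) 0 v := by
    intro v
    have h2 := (h.dl v).sub (h'.dl v)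
    rw [← hc, ← hb, sub_self] at h2
    exact h2
  have h2 := is_const_of_deriv_eq_zero (f := fun v => ℓ v - ℓ' v) (fun v => (h1 v).differentiableAt) (fun v => (h1 v).deriv) v' v
  have h3 : ℓ v' - ℓ' v' = ℓ v - ℓ' v := h2
  linarith

theorem LJT_proof (hLDR : LDR_stmt) : LJT_stmt := by
  intro k C F D hD hF E hE
  obtain ⟨-, hF1⟩ := LJT_F hD.c1 hF
  exact ⟨fun κ E' γ x b c ℓ y hκ hE' hEE h hy => LJT_one hLDR hD hF E hE κ E' γ x b c ℓ y hκ hE' hEE h hy, fun κ γ x b c ℓ h => LJT_two h,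
    fun κ κ' γ x b c ℓ hκ hκ' h => LJT_three hD.c1 (by linarith) hκ hκ' h, fun κ κ' γ x b c ℓ x' b' c' ℓ' h h' => LJT_four h h'⟩

end

end Pool.Agent.VN
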